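import Pool.Agent.Lib.MP_95bb8c_al.Law

set_option autoImplicit false

namespace Pool.Agent.Lib.MP_95bb8c_al

open Finset

variable {V E : Type} [Fintype V] [DecidableEq V] [Fintype E] [DecidableEq E]
variable {s t : E → V} {T : Finset V}

omit [Fintype V] [DecidableEq E] in
theorem mem_star (hl : ∀ e, s e ≠ t e) {v : V} {e : E} :
    e ∈ cut s t {v} ↔ s e = v ∨ t e = v := by
  constructor
  · intro h
    rcases end_of_mem (hl := hl) h with h | h
    · exact Or.inl h.1
    · exact Or.inr h.1
  · rintro (h | h)
    · rw [← h]; exact mem_cut_s (hl e)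
    · rw [← h]; exact mem_cut_t (hl e)

omit [DecidableEq E] in
theorem exists_pair (hl : ∀ e, s e ≠ t e) (hcard : 2 < Fintype.card V) (hconn : Conn s t) :
    ∃ (e f : E) (y y' : V), e ∈ cut s t {y} ∧ f ∈ cut s t {y} ∧ e ∈ cut s t {y'} ∧
      f ∉ cut s t {y'} := by
  have : Nonempty V := Fintype.card_pos_iff.mp (by omega)
  obtain ⟨v⟩ := this
  have h1 : ({v} : Finset V) ≠ univ := by
    intro h
    have := congrArg Finset.card h
    rw [Finset.card_singleton, Finset.card_univ] at this
    omega
  obtain ⟨e, -⟩ := hconn {v} (Finset.singleton_nonempty v) h1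
  have h2 : ({s e, t e} : Finset V) ≠ univ := by
    intro h
    have := congrArg Finset.card h
    rw [Finset.card_pair (hl e), Finset.card_univ] at this
    omega
  obtain ⟨f, hf⟩ := hconn {s e, t e} ⟨s e, by simp⟩ h2
  rw [mem_cut] at hf
  simp only [Finset.mem_insert, Finset.mem_singleton] at hf
  by_cases h3 : s f = s e ∨ s f = t e
  · have h4 : ¬ (t f = s e ∨ t f = t e) := fun h => hf (iff_of_true h3 h)
    push Not at h4
    rcases h3 with h3 | h3
    · refine ⟨e, f, s e, t e, (mem_star hl).mpr (Or.inl rfl), (mem_star hl).mpr (Or.inl h3),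
        (mem_star hl).mpr (Or.inr rfl), ?_⟩
      rw [mem_star hl]
      rintro (h5 | h5)
      · exact hl e (h3.symm.trans h5)
      · exact h4.2 h5
    · refine ⟨e, f, t e, s e, (mem_star hl).mpr (Or.inr rfl), (mem_star hl).mpr (Or.inl h3),
        (mem_star hl).mpr (Or.inl rfl), ?_⟩
      rw [mem_star hl]
      rintro (h5 | h5)
      · exact hl e (h5.symm.trans h3)
      · exact h4.1 h5
  · have h4 : t f = s e ∨ t f = t e := by
      by_contra h
      exact hf (iff_of_false h3 h)
    push Not at h3
    rcases h4 with h4 | h4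
    · refine ⟨e, f, s e, t e, (mem_star hl).mpr (Or.inl rfl), (mem_star hl).mpr (Or.inr h4),
        (mem_star hl).mpr (Or.inr rfl), ?_⟩
      rw [mem_star hl]
      rintro (h5 | h5)
      · exact h3.2 h5
      · exact hl e (h4.symm.trans h5)
    · refine ⟨e, f, t e, s e, (mem_star hl).mpr (Or.inr rfl), (mem_star hl).mpr (Or.inr h4),
        (mem_star hl).mpr (Or.inl rfl), ?_⟩
      rw [mem_star hl]
      rintro (h5 | h5)
      · exact h3.1 h5
      · exact hl e (h5.symm.trans h4)

theorem two_le_dg (hl : ∀ e, s e ≠ t e) (hcard : 2 < Fintype.card V) (hconn : Conn s t)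
    (bar : V → V) (hbar : ∀ v, bar (bar v) = v) (hbar' : ∀ v, bar v ≠ v)
    (hdb : ∀ v, dg s t (bar v) = dg s t v)
    (hlam : ∀ v S, v ∈ S → bar v ∉ S → dg s t v ≤ (cut s t S).card) (v : V) :
    2 ≤ dg s t v := by
  have h1 : ({v} : Finset V) ≠ univ := by
    intro h
    have := congrArg Finset.card h
    rw [Finset.card_singleton, Finset.card_univ] at this
    omega
  obtain ⟨e, he⟩ := hconn {v} (Finset.singleton_nonempty v) h1
  have hpos : 0 < dg s t v := Finset.card_pos.mpr ⟨e, he⟩
  by_contra hcon
  have hone : dg s t v = 1 := by omega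
  have hcutv : cut s t {v} = {e} := by
    symm
    apply Finset.eq_of_subset_of_card_le (Finset.singleton_subset_iff.mpr he)
    rw [Finset.card_singleton]
    exact hone.le
  -- the other end
  obtain ⟨x, hx, hxv⟩ : ∃ x, e ∈ cut s t {x} ∧ x ≠ v := by
    rcases end_of_mem (hl := hl) he with ⟨h2, h3⟩ | ⟨h2, h3⟩
    · exact ⟨t e, mem_cut_t (hl e), h3⟩
    · exact ⟨s e, mem_cut_s (hl e), h3⟩
  have hecut : e ∉ cut s t {v, x} := by
    rw [mem_cut, not_not]
    simp only [Finset.mem_insert, Finset.mem_singleton]
    rw [mem_star hl] at he hx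
    rcases he with h2 | h2 <;> rcases hx with h3 | h3
    · exact absurd (h3.symm.trans h2) hxv
    · exact iff_of_true (Or.inl h2) (Or.inr h3)
    · exact iff_of_true (Or.inr h3) (Or.inl h2)
    · exact absurd (h3.symm.trans h2) hxv
  have hsub : cut s t {v, x} ⊆ (cut s t {x}).erase e := by
    intro f hf
    rw [Finset.mem_erase]
    refine ⟨?_, ?_⟩
    · rintro rfl
      exact hecut hf
    · by_contra hfx
      rw [mem_cut] at hf
      simp only [Finset.mem_insert, Finset.mem_singleton] at hf
      rw [mem_star hl] at hfx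
      push Not at hfx
      have hfv : f ∈ cut s t {v} := by
        rw [mem_star hl]
        by_contra h
        push Not at h
        exact hf (iff_of_false (by push Not; exact ⟨h.1, hfx.1⟩) (by push Not; exact ⟨h.2, hfx.2⟩))
      rw [hcutv, Finset.mem_singleton] at hfv
      subst hfv
      rw [mem_star hl] at hx
      rcases hx with h | h
      · exact hfx.1 h
      · exact hfx.2 h
  have hlt : (cut s t {v, x}).card < dg s t x := by
    have := Finset.card_le_card hsub
    rw [Finset.card_erase_of_mem hx] at this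
    have h2 : 0 < (cut s t {x}).card := Finset.card_pos.mpr ⟨e, hx⟩
    unfold dg
    omega
  by_cases hxb : x = bar v
  · have h2 : dg s t x = 1 := by rw [hxb, hdb, hone]
    have h3 : (cut s t {v, x}).card = 0 := by omega
    have h4 : ({v, x} : Finset V) ≠ univ := by
      intro h
      have := congrArg Finset.card h
      rw [Finset.card_pair hxv.symm, Finset.card_univ] at this
      omega
    have := hconn {v, x} ⟨v, by simp⟩ h4
    rw [Finset.card_eq_zero] at h3
    rw [h3] at this
    simp at this
  · have h2 := hlam x {v, x} (by simp) (by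
      rw [Finset.mem_insert, Finset.mem_singleton, not_or]
      refine ⟨?_, hbar' x⟩
      intro h
      apply hxb
      rw [← h, hbar])
    omega

omit [Fintype V] in
/-- The cut of a set that is closed under the involution is even. -/
theorem even_of_closed (hl : ∀ e, s e ≠ t e) (bar : V → V) (hbar : ∀ v, bar (bar v) = v)
    (hbar' : ∀ v, bar v ≠ v) (hdb : ∀ v, dg s t (bar v) = dg s t v) (S : Finset V)
    (hS : ∀ v ∈ S, bar v ∈ S) : Even (cut s t S).card := by
  have h1 : ∑ v ∈ S, dg s t v = ∑ e, (S.filter fun v => e ∈ cut s t {v}).card := by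
    unfold dg
    simp_rw [Finset.card_eq_sum_ones, Finset.sum_filter]
    rw [Finset.sum_comm]
    apply Finset.sum_congr rfl
    intro v _
    rw [← Finset.sum_filter, Finset.filter_mem_eq_inter, Finset.univ_inter]
  have h2 : Even (∑ v ∈ S, dg s t v) := by
    rw [← ZMod.natCast_eq_zero_iff_even]
    push_cast
    apply Finset.sum_involution (fun v _ => bar v)
    · intro v _
      rw [hdb, ← two_mul]
      have : (2 : ZMod 2) = 0 := rfl
      rw [this, zero_mul]
    · intro v _ _
      exact hbar' v
    · intro v hv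
      exact hS v hv
    · intro v _
      exact hbar v
  have h3 : Even ((∑ v ∈ S, dg s t v) + (cut s t S).card) := by
    have h4 : (cut s t S).card = ∑ e, if e ∈ cut s t S then 1 else 0 := by
      rw [Finset.sum_boole, Finset.filter_mem_eq_inter, Finset.univ_inter]
      rfl
    rw [h1, h4, ← Finset.sum_add_distrib]
    apply Finset.even_sum
    intro e _
    have h5 : (S.filter fun v => e ∈ cut s t {v}) = S ∩ {s e, t e} := by
      ext v
      rw [Finset.mem_filter, Finset.mem_inter, mem_star hl, Finset.mem_insert,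
        Finset.mem_singleton]
      constructor
      · rintro ⟨h6, h7 | h7⟩
        · exact ⟨h6, Or.inl h7.symm⟩
        · exact ⟨h6, Or.inr h7.symm⟩
      · rintro ⟨h6, h7 | h7⟩
        · exact ⟨h6, Or.inl h7.symm⟩
        · exact ⟨h6, Or.inr h7.symm⟩
    rw [h5]
    by_cases h6 : s e ∈ S <;> by_cases h7 : t e ∈ S
    · have h8 : S ∩ {s e, t e} = {s e, t e} := by
        apply Finset.inter_eq_right.mpr
        intro v hv
        rw [Finset.mem_insert, Finset.mem_singleton] at hv
        rcases hv with rfl | rfl
        · exact h6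
        · exact h7
      rw [h8, Finset.card_pair (hl e), if_neg (by rw [mem_cut, not_not]; exact iff_of_true h6 h7)]
      decide
    · have h8 : S ∩ {s e, t e} = {s e} := by
        ext v
        simp only [Finset.mem_inter, Finset.mem_insert, Finset.mem_singleton]
        constructor
        · rintro ⟨h9, h10 | h10⟩
          · exact h10
          · rw [h10] at h9; exact absurd h9 h7
        · rintro rfl
          exact ⟨h6, Or.inl rfl⟩
      rw [h8, Finset.card_singleton, if_pos (by rw [mem_cut]; exact fun h => h7 (h.mp h6))]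
      decide
    · have h8 : S ∩ {s e, t e} = {t e} := by
        ext v
        simp only [Finset.mem_inter, Finset.mem_insert, Finset.mem_singleton]
        constructor
        · rintro ⟨h9, h10 | h10⟩
          · rw [h10] at h9; exact absurd h9 h6
          · exact h10
        · rintro rfl
          exact ⟨h7, Or.inr rfl⟩
      rw [h8, Finset.card_singleton, if_pos (by rw [mem_cut]; exact fun h => h6 (h.mpr h7))]
      decide
    · have h8 : S ∩ {s e, t e} = ∅ := by
        ext v
        simp only [Finset.mem_inter, Finset.mem_insert, Finset.mem_singleton,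
          Finset.notMem_empty, iff_false]
        rintro ⟨h9, h10 | h10⟩
        · rw [h10] at h9; exact h6 h9
        · rw [h10] at h9; exact h7 h9
      rw [h8, if_neg (by rw [mem_cut, not_not]; exact iff_of_false h6 h7)]
      simp
  rw [Nat.even_add] at h3
  exact h3.mp h2

omit [Fintype V] [DecidableEq V] in
theorem even_card_of_closed (bar : V → V) (hbar : ∀ v, bar (bar v) = v)
    (hbar' : ∀ v, bar v ≠ v) (S : Finset V) (hS : ∀ v ∈ S, bar v ∈ S) : Even S.card := by
  rw [← ZMod.natCast_eq_zero_iff_even, Finset.card_eq_sum_ones]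
  push_cast
  apply Finset.sum_involution (fun v _ => bar v)
  · intro v _
    rfl
  · intro v _ _
    exact hbar' v
  · intro v hv
    exact hS v hv
  · intro v _
    exact hbar v

theorem good_of (hl : ∀ e, s e ≠ t e) (hcard : 2 < Fintype.card V) (hconn : Conn s t)
    (bar : V → V) (hbar : ∀ v, bar (bar v) = v) (hbar' : ∀ v, bar v ≠ v)
    (hdb : ∀ v, dg s t (bar v) = dg s t v)
    (hlam : ∀ v S, v ∈ S → bar v ∉ S → dg s t v ≤ (cut s t S).card) (D : ℕ)
    (hdeg : ∀ v, dg s t v = D ∨ dg s t v ≤ 3) :
    ∃ (T : Finset V) (D' : ℕ), Good s t T D' ∧ ∀ v, bar v ∈ T ↔ v ∈ T := by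
  have hbr : ∀ S : Finset V, (cut s t S).card ≠ 1 := by
    intro S hS
    by_cases h : ∀ v ∈ S, bar v ∈ S
    · have := even_of_closed hl bar hbar hbar' hdb S h
      rw [hS] at this
      exact absurd this (by decide)
    · push Not at h
      obtain ⟨v, hv, hv2⟩ := h
      have h1 := hlam v S hv hv2
      have h2 := two_le_dg hl hcard hconn bar hbar hbar' hdb hlam v
      omega
  by_cases hD : 4 ≤ D
  · refine ⟨univ.filter fun v => dg s t v = D, D, ⟨by omega, ?_, ?_, ?_, hbr⟩, ?_⟩
    · intro v hv
      exact (Finset.mem_filter.mp hv).2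
    · intro v hv
      rw [Finset.mem_filter] at hv
      rcases hdeg v with h | h
      · exact absurd ⟨Finset.mem_univ _, h⟩ hv
      · exact h
    · intro S hS
      by_contra hcon
      push Not at hcon
      rw [← Nat.not_even_iff_odd] at hS
      apply hS
      apply even_card_of_closed bar hbar hbar'
      intro v hv
      rw [Finset.mem_inter, Finset.mem_filter] at hv ⊢
      refine ⟨?_, Finset.mem_univ _, by rw [hdb]; exact hv.2.2⟩
      by_contra hv2
      have := hlam v S hv.1 hv2
      rw [hv.2.2] at this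
      omega
    · intro v
      rw [Finset.mem_filter, Finset.mem_filter, hdb]
      simp
  · refine ⟨∅, 4, ⟨by omega, ?_, ?_, ?_, hbr⟩, ?_⟩
    · intro v hv
      simp at hv
    · intro v _
      rcases hdeg v with h | h
      · omega
      · exact h
    · intro S hS
      rw [Finset.inter_empty, Finset.card_empty] at hS
      exact absurd hS (by decide)
    · intro v
      simp

theorem tiling (hl : ∀ e, s e ≠ t e) (hcard : 2 < Fintype.card V) (hconn : Conn s t)
    (bar : V → V) (hbar : ∀ v, bar (bar v) = v) (hbar' : ∀ v, bar v ≠ v)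
    (sig : V → E → E) (hsig : ∀ v, ∀ e ∈ cut s t {v}, sig v e ∈ cut s t {bar v})
    (hinj : ∀ v, ∀ e ∈ cut s t {v}, ∀ f ∈ cut s t {v}, sig v e = sig v f → e = f)
    (hlam : ∀ v S, v ∈ S → bar v ∉ S → dg s t v ≤ (cut s t S).card) (D : ℕ)
    (hdeg : ∀ v, dg s t v = D ∨ dg s t v ≤ 3) :
    ∃ L : List (Finset E), (∀ C ∈ L, IsCycle s t C) ∧ (∃ C ∈ L, 3 ≤ C.card) ∧
      ∀ v, ∀ e ∈ cut s t {v}, ∀ f ∈ cut s t {v},
        (L.countP fun C => e ∈ C ∧ f ∈ C) = (L.countP fun C => sig v e ∈ C ∧ sig v f ∈ C) := by
  have hle : ∀ v, dg s t v ≤ dg s t (bar v) := by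
    intro v
    unfold dg
    apply Finset.card_le_card_of_injOn (sig v)
    · intro e he
      exact hsig v e he
    · intro e he f hf h
      exact hinj v e he f hf h
  have hdb : ∀ v, dg s t (bar v) = dg s t v := by
    intro v
    have h1 := hle v
    have h2 := hle (bar v)
    rw [hbar] at h2
    omega
  obtain ⟨T, D', hg, hTb⟩ := good_of hl hcard hconn bar hbar hbar' hdb hlam D hdeg
  obtain ⟨L, N, hN, hL1, hL2⟩ := balanced_law hl hg
  have hNq : (0 : ℚ) < N := by exact_mod_cast hN
  refine ⟨L, hL1, ?_, ?_⟩
  · obtain ⟨e, f, y, y', hey, hfy, hey', hfy'⟩ := exists_pair hl hcard hconn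
    have hef : e ≠ f := by
      rintro rfl
      exact hfy' hey'
    have h1 := hL2 y e hey f hfy
    have hD := hg.hD
    have hD' : (3 : ℚ) ≤ D' := by exact_mod_cast hD
    have h2 : (0 : ℚ) < 1 / (D' : ℚ) := by positivity
    have h3 : 1 / (D' : ℚ) ≤ 1 / 3 := one_div_le_one_div_of_le (by norm_num) hD'
    have h4 : 0 < freq s t T D' y e f := by
      have h4' : 0 < 1 - 1 / (D' : ℚ) := by linarith
      unfold freq
      split_ifs <;>
      first
      | exact mul_pos (mul_pos two_pos h2) h4'
      | exact mul_pos (mul_pos two_pos h2) h2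
      | exact mul_pos h2 h4'
    have h5 : 0 < (L.countP fun C => e ∈ C ∧ f ∈ C) := by
      have : (0 : ℚ) < ((L.countP fun C => e ∈ C ∧ f ∈ C : ℕ) : ℚ) := by
        rw [h1]
        positivity
      exact_mod_cast this
    rw [List.countP_pos_iff] at h5
    obtain ⟨C, hC, hC2⟩ := h5
    rw [decide_eq_true_eq] at hC2
    refine ⟨C, hC, ?_⟩
    have h6 := (hL1 C hC).deg y'
    have h7 : e ∈ C ∩ cut s t {y'} := Finset.mem_inter.mpr ⟨hC2.1, hey'⟩
    have h8 : (C ∩ cut s t {y'}).card = 2 := by
      rcases h6 with h | h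
      · rw [Finset.card_eq_zero] at h
        rw [h] at h7
        simp at h7
      · exact h
    have h9 : C ∩ cut s t {y'} ⊆ C.erase f := by
      intro g hg'
      rw [Finset.mem_inter] at hg'
      rw [Finset.mem_erase]
      refine ⟨?_, hg'.1⟩
      rintro rfl
      exact hfy' hg'.2
    have h10 := Finset.card_le_card h9
    rw [Finset.card_erase_of_mem hC2.2, h8] at h10
    omega
  · intro v e he f hf
    have h1 := hL2 v e he f hf
    have h2 := hL2 (bar v) _ (hsig v e he) _ (hsig v f hf)
    have h3 : freq s t T D' (bar v) (sig v e) (sig v f) = freq s t T D' v e f := by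
      have h4 : sig v e = sig v f ↔ e = f :=
        ⟨hinj v e he f hf, fun h => by rw [h]⟩
      unfold freq
      simp only [h4, hTb, hdb]
    rw [h3, ← h1] at h2
    exact_mod_cast h2.symm

end Pool.Agent.Lib.MP_95bb8c_al
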