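import Pool.Agent.Lib.MP_95bb8c_al.Tiling

set_option autoImplicit false

namespace Pool.Agent.Lib.MP_95bb8c_al

open Finset

variable {n : ℕ} {U : List (List (Letter n))}

theorem next_prev (p : Pos U) : p.prev.next = p := by
  obtain ⟨j, i, hi⟩ := p
  unfold Pos.next Pos.prev
  simp only [Sigma.mk.injEq, heq_eq_eq, Fin.mk.injEq, true_and]
  rw [Nat.mod_add_mod]
  have h : i + ((U.get j).length - 1) + 1 = i + (U.get j).length := by omega
  rw [h, Nat.add_mod_right]
  exact Nat.mod_eq_of_lt hi

theorem prev_next (p : Pos U) : p.next.prev = p := by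
  obtain ⟨j, i, hi⟩ := p
  unfold Pos.next Pos.prev
  simp only [Sigma.mk.injEq, heq_eq_eq, Fin.mk.injEq, true_and]
  rw [Nat.mod_add_mod]
  have h : i + 1 + ((U.get j).length - 1) = i + (U.get j).length := by omega
  rw [h, Nat.add_mod_right]
  exact Nat.mod_eq_of_lt hi

theorem bar_bar (x : Letter n) : bar (bar x) = x := by
  obtain ⟨a, b⟩ := x
  simp [bar]

theorem bar_ne (x : Letter n) : bar x ≠ x := by
  obtain ⟨a, b⟩ := x
  simp [bar]

theorem no_loop (hU : CycRed U) (p : Pos U) : src U p ≠ tgt U p := by
  intro h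
  apply hU.2 p
  unfold src tgt at h
  rw [h, bar_bar]

theorem tgt_eq {p : Pos U} {v : Letter n} (h : tgt U p = v) : src U p.next = bar v := by
  rw [← h]
  unfold src tgt
  rw [bar_bar]

theorem src_eq {p : Pos U} {v : Letter n} (h : src U p = v) : tgt U p.prev = bar v := by
  rw [← h]
  unfold src tgt
  rw [next_prev]

theorem conMap_mem (hU : CycRed U) (v : Letter n) : ∀ e ∈ cut (src U) (tgt U) {v},
    conMap U v e ∈ cut (src U) (tgt U) {bar v} := by
  intro e he
  rw [mem_star (no_loop hU)] at he ⊢
  unfold conMap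
  by_cases h : tgt U e = v
  · rw [if_pos h]
    exact Or.inl (tgt_eq h)
  · rw [if_neg h]
    rcases he with h1 | h1
    · exact Or.inr (src_eq h1)
    · exact absurd h1 h

theorem conMap_inj (hU : CycRed U) (v : Letter n) : ∀ e ∈ cut (src U) (tgt U) {v},
    ∀ f ∈ cut (src U) (tgt U) {v}, conMap U v e = conMap U v f → e = f := by
  intro e he f hf h
  rw [mem_star (no_loop hU)] at he hf
  unfold conMap at h
  by_cases h1 : tgt U e = v <;> by_cases h2 : tgt U f = v
  · rw [if_pos h1, if_pos h2] at h
    rw [← prev_next e, h, prev_next]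
  · rw [if_pos h1, if_neg h2] at h
    exfalso
    have h3 : src U f = v := by
      rcases hf with h4 | h4
      · exact h4
      · exact absurd h4 h2
    have h4 := tgt_eq h1
    have h5 := src_eq h3
    rw [← h] at h5
    exact no_loop hU _ (h4.trans h5.symm)
  · rw [if_neg h1, if_pos h2] at h
    exfalso
    have h3 : src U e = v := by
      rcases he with h4 | h4
      · exact h4
      · exact absurd h4 h1
    have h4 := tgt_eq h2
    have h5 := src_eq h3
    rw [h] at h5
    exact no_loop hU _ (h4.trans h5.symm)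
  · rw [if_neg h1, if_neg h2] at h
    rw [← next_prev e, h, next_prev]

theorem countP_get {α : Type} (p : α → Bool) (l : List α) :
    l.countP p = (univ.filter fun i : Fin l.length => p (l.get i)).card := by
  rw [Finset.card_filter]
  induction l with
  | nil => simp
  | cons a l ih =>
    rw [List.countP_cons, ih]
    show _ = ∑ i : Fin (l.length + 1), _
    rw [Fin.sum_univ_succ, add_comm]
    rfl

theorem occ_eq (a : Fin n) : occ U a = (univ.filter fun p : Pos U => p.letter.1 = a).card := by
  unfold occ
  rw [← Fin.sum_univ_fun_getElem, Finset.card_filter, Fintype.sum_sigma]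
  apply Finset.sum_congr rfl
  intro j _
  rw [countP_get, Finset.card_filter]
  apply Finset.sum_congr rfl
  intro i _
  by_cases h : (((U.get j).get i).1 = a)
  · rw [if_pos (by exact decide_eq_true h), if_pos (by exact h)]
  · rw [if_neg (by exact fun h' => h (of_decide_eq_true h')), if_neg (by exact h)]

theorem dg_eq (hU : CycRed U) (v : Letter n) : dg (src U) (tgt U) v = occ U v.1 := by
  have hl := no_loop hU
  have h1 : cut (src U) (tgt U) {v} =
      (univ.filter fun p => src U p = v) ∪ (univ.filter fun p => tgt U p = v) := by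
    ext p
    rw [mem_star hl]
    simp
  have h2 : (univ.filter fun p : Pos U => tgt U p = v).card =
      (univ.filter fun p : Pos U => src U p = bar v).card := by
    apply Finset.card_bij (fun p _ => p.next)
    · intro p hp
      rw [Finset.mem_filter] at hp ⊢
      exact ⟨Finset.mem_univ _, tgt_eq hp.2⟩
    · intro p _ q _ h
      rw [← prev_next p, h, prev_next]
    · intro q hq
      rw [Finset.mem_filter] at hq
      refine ⟨q.prev, ?_, next_prev q⟩
      rw [Finset.mem_filter]
      refine ⟨Finset.mem_univ _, ?_⟩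
      rw [src_eq hq.2, bar_bar]
  unfold dg
  rw [h1, Finset.card_union_of_disjoint, h2, ← Finset.card_union_of_disjoint, occ_eq]
  · congr 1
    ext p
    simp only [Finset.mem_union, Finset.mem_filter, Finset.mem_univ, true_and]
    unfold src bar
    constructor
    · rintro (h | h)
      · rw [h]
      · rw [h]
    · intro h
      rcases Bool.eq_or_eq_not p.letter.2 v.2 with h3 | h3
      · exact Or.inl (Prod.ext h h3)
      · exact Or.inr (Prod.ext h h3)
  · rw [Finset.disjoint_left]
    intro p hp hp2
    rw [Finset.mem_filter] at hp hp2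
    exact bar_ne v (hp2.2.symm.trans hp.2)
  · rw [Finset.disjoint_left]
    intro p hp hp2
    rw [Finset.mem_filter] at hp hp2
    exact hl p (hp.2.trans hp2.2.symm)

theorem low_degree (hn : 1 < n) (U : List (List (Letter n))) (hU : CycRed U)
    (hconn : Conn (src U) (tgt U)) (hlam : ∀ v, lam U v (bar v) = (star U v).card) (D : ℕ)
    (hD : ∀ a, occ U a = D ∨ occ U a ≤ 3) :
    ∃ L : List (Finset (Pos U)), (∀ C ∈ L, IsCycle (src U) (tgt U) C) ∧ (∃ C ∈ L, 3 ≤ C.card) ∧
      ∀ v, ∀ e ∈ star U v, ∀ f ∈ star U v,
        (L.countP fun C => e ∈ C ∧ f ∈ C) =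
          (L.countP fun C => conMap U v e ∈ C ∧ conMap U v f ∈ C) := by
  refine tiling (no_loop hU) ?_ hconn bar bar_bar bar_ne (conMap U) (conMap_mem hU)
    (conMap_inj hU) ?_ D ?_
  · rw [Fintype.card_prod, Fintype.card_fin, Fintype.card_bool]
    omega
  · intro v S hv hv2
    have h1 := hlam v
    unfold lam star at h1
    unfold dg
    rw [← h1]
    exact Nat.sInf_le ⟨S, hv, hv2, rfl⟩
  · intro v
    rw [dg_eq hU]
    exact hD v.1

end Pool.Agent.Lib.MP_95bb8c_al
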