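import Pool.Agent.Lib.MP_95bb8c_al.Joins

set_option autoImplicit false

namespace Pool.Agent.Lib.MP_95bb8c_al

open Finset

variable {V E : Type} [Fintype V] [DecidableEq V] [Fintype E] [DecidableEq E]
variable {s t : E → V} {T : Finset V}

/-- All degrees are `0` or `2`. -/
def Deg02 (s t : E → V) (X : Finset E) : Prop :=
  ∀ v, (X ∩ cut s t {v}).card = 0 ∨ (X ∩ cut s t {v}).card = 2

omit [Fintype E] in
theorem sub_eq {X Y A : Finset E} (hYX : Y ⊆ X) (hX : (X ∩ A).card = 0 ∨ (X ∩ A).card = 2)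
    (hY : (Y ∩ A).card = 0 ∨ (Y ∩ A).card = 2) (hne : (Y ∩ A).Nonempty) : Y ∩ A = X ∩ A := by
  have h1 := Finset.card_pos.mpr hne
  have h2 : Y ∩ A ⊆ X ∩ A := Finset.inter_subset_inter_right hYX
  have h3 := Finset.card_le_card h2
  exact Finset.eq_of_subset_of_card_le h2 (by omega)

omit [Fintype V] in
theorem decomp (hl : ∀ e, s e ≠ t e) : ∀ (k : ℕ) (X : Finset E), X.card = k → Deg02 s t X →
    ∃ L : List (Finset E), (∀ C ∈ L, IsCycle s t C) ∧ ∀ v, ∀ e ∈ cut s t {v}, ∀ f ∈ cut s t {v},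
      (L.countP fun C => e ∈ C ∧ f ∈ C) = if e ∈ X ∧ f ∈ X then 1 else 0 := by
  intro k
  induction k using Nat.strong_induction_on with
  | _ k IH =>
  intro X hk hX
  classical
  rcases X.eq_empty_or_nonempty with rfl | hne
  · exact ⟨[], by simp, by simp⟩
  obtain ⟨Y, hY, hmin⟩ := Finset.exists_min_image
    (X.powerset.filter fun Y => Y.Nonempty ∧ Deg02 s t Y) Finset.card
    ⟨X, Finset.mem_filter.mpr ⟨Finset.mem_powerset_self X, hne, hX⟩⟩
  rw [Finset.mem_filter, Finset.mem_powerset] at hY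
  obtain ⟨hYX, hYne, hYd⟩ := hY
  have hcyc : IsCycle s t Y := by
    refine ⟨hYne, hYd, ?_⟩
    intro S hS
    have hside : ∀ e ∈ Y, (s e ∈ S ↔ t e ∈ S) := by
      intro e he
      by_contra h
      have : e ∈ Y ∩ cut s t S := Finset.mem_inter.mpr ⟨he, mem_cut.mpr h⟩
      rw [hS] at this
      simp at this
    by_contra hcon
    push Not at hcon
    obtain ⟨⟨e, he, heS⟩, ⟨f, hf, hfS⟩⟩ := hcon
    set Z := Y.filter fun e => s e ∈ S with hZ
    have hZd : Deg02 s t Z := by
      intro v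
      by_cases hv : v ∈ S
      · have : Z ∩ cut s t {v} = Y ∩ cut s t {v} := by
          ext g
          rw [Finset.mem_inter, Finset.mem_inter, hZ, Finset.mem_filter]
          constructor
          · rintro ⟨⟨h1, -⟩, h2⟩
            exact ⟨h1, h2⟩
          · rintro ⟨h1, h2⟩
            refine ⟨⟨h1, ?_⟩, h2⟩
            rcases end_of_mem (hl := hl) h2 with ⟨h3, h4⟩ | ⟨h3, h4⟩
            · rw [h3]; exact hv
            · rw [hside g h1, h3]; exact hv
        rw [this]
        exact hYd v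
      · left
        rw [Finset.card_eq_zero, Finset.eq_empty_iff_forall_notMem]
        intro g hg
        rw [Finset.mem_inter, hZ, Finset.mem_filter] at hg
        obtain ⟨⟨h1, h5⟩, h2⟩ := hg
        rcases end_of_mem (hl := hl) h2 with ⟨h3, h4⟩ | ⟨h3, h4⟩
        · rw [h3] at h5; exact hv h5
        · rw [hside g h1, h3] at h5; exact hv h5
    have hZY : Z ⊆ Y := Finset.filter_subset _ _
    have h6 := hmin Z (Finset.mem_filter.mpr ⟨Finset.mem_powerset.mpr (hZY.trans hYX),
      ⟨f, Finset.mem_filter.mpr ⟨hf, hfS⟩⟩, hZd⟩)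
    have h7 := Finset.eq_of_subset_of_card_le hZY h6
    rw [← h7, hZ, Finset.mem_filter] at he
    exact heS he.2
  have hXY : Deg02 s t (X \ Y) := by
    intro v
    rcases (Y ∩ cut s t {v}).eq_empty_or_nonempty with h | h
    · have : X \ Y ∩ cut s t {v} = X ∩ cut s t {v} := by
        ext g
        rw [Finset.mem_inter, Finset.mem_inter, Finset.mem_sdiff]
        constructor
        · rintro ⟨⟨h1, -⟩, h2⟩
          exact ⟨h1, h2⟩
        · rintro ⟨h1, h2⟩
          refine ⟨⟨h1, fun h3 => ?_⟩, h2⟩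
          have : g ∈ Y ∩ cut s t {v} := Finset.mem_inter.mpr ⟨h3, h2⟩
          rw [h] at this
          simp at this
      rw [this]
      exact hX v
    · left
      have h1 := sub_eq hYX (hX v) (hYd v) h
      rw [Finset.card_eq_zero, Finset.eq_empty_iff_forall_notMem]
      intro g hg
      rw [Finset.mem_inter, Finset.mem_sdiff] at hg
      have : g ∈ X ∩ cut s t {v} := Finset.mem_inter.mpr ⟨hg.1.1, hg.2⟩
      rw [← h1, Finset.mem_inter] at this
      exact hg.1.2 this.1
  have hlt : (X \ Y).card < k := by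
    rw [← hk]
    apply Finset.card_lt_card
    refine ⟨Finset.sdiff_subset, fun h => ?_⟩
    obtain ⟨g, hg⟩ := hYne
    exact (Finset.mem_sdiff.mp (h (hYX hg))).2 hg
  obtain ⟨L, hL1, hL2⟩ := IH _ hlt _ rfl hXY
  refine ⟨Y :: L, ?_, ?_⟩
  · intro C hC
    rw [List.mem_cons] at hC
    rcases hC with rfl | hC
    · exact hcyc
    · exact hL1 C hC
  · intro v e he f hf
    rw [List.countP_cons, hL2 v e he f hf]
    have hYe : e ∈ Y → f ∈ X → f ∈ Y := by
      intro h1 h2
      have h3 := sub_eq hYX (hX v) (hYd v) ⟨e, Finset.mem_inter.mpr ⟨h1, he⟩⟩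
      have : f ∈ X ∩ cut s t {v} := Finset.mem_inter.mpr ⟨h2, hf⟩
      rw [← h3, Finset.mem_inter] at this
      exact this.1
    have hYf : f ∈ Y → e ∈ X → e ∈ Y := by
      intro h1 h2
      have h3 := sub_eq hYX (hX v) (hYd v) ⟨f, Finset.mem_inter.mpr ⟨h1, hf⟩⟩
      have : e ∈ X ∩ cut s t {v} := Finset.mem_inter.mpr ⟨h2, he⟩
      rw [← h3, Finset.mem_inter] at this
      exact this.1
    have h1 := @hYX e
    have h2 := @hYX f
    simp only [Finset.mem_sdiff, decide_eq_true_eq]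
    by_cases ha : e ∈ X <;> by_cases hb : f ∈ X <;> by_cases hc : e ∈ Y <;>
      by_cases hd : f ∈ Y <;> simp_all

theorem combine {α κ : Type} [Fintype κ] (m : κ → ℕ) (L : κ → List α) :
    ∃ L0 : List α, (∀ a ∈ L0, ∃ k, m k ≠ 0 ∧ a ∈ L k) ∧
      ∀ p : α → Bool, L0.countP p = ∑ k, m k * (L k).countP p := by
  refine ⟨(univ : Finset κ).toList.flatMap fun k => (List.replicate (m k) (L k)).flatten, ?_, ?_⟩
  · intro a ha
    rw [List.mem_flatMap] at ha
    obtain ⟨k, -, hk⟩ := ha
    rw [List.mem_flatten] at hk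
    obtain ⟨l, hl, hal⟩ := hk
    rw [List.mem_replicate] at hl
    exact ⟨k, hl.1, hl.2 ▸ hal⟩
  · intro p
    have h : (List.countP p ∘ fun k => (List.replicate (m k) (L k)).flatten) =
        fun k => m k * (L k).countP p := by
      funext k
      simp [List.countP_flatten, Function.comp]
    rw [List.countP_flatMap, h, Finset.sum_map_toList]

/-- Rational weights have a common denominator. -/
theorem common_den {ι : Type} [Fintype ι] (w : ι → ℚ) (h : ∀ i, 0 ≤ w i) :
    ∃ (N : ℕ) (m : ι → ℕ), 0 < N ∧ ∀ i, (m i : ℚ) = N * w i := by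
  classical
  have hpos : 0 < ∏ i, (w i).den := Finset.prod_pos fun i _ => (w i).den_pos
  have hm : ∀ i, ∃ m : ℕ, (m : ℚ) = (∏ i, (w i).den : ℕ) * w i := by
    intro i
    obtain ⟨c, hc⟩ := Finset.dvd_prod_of_mem (fun i => (w i).den) (Finset.mem_univ i)
    have h1 : (((w i).num * c : ℤ) : ℚ) = (∏ i, (w i).den : ℕ) * w i := by
      have h2 : (∏ i, (w i).den) = (w i).den * c := hc
      rw [h2]
      push_cast
      have h3 := Rat.mul_den_eq_num (w i)
      rw [← h3]
      ring
    have h2 : 0 ≤ (w i).num * (c : ℤ) :=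
      mul_nonneg (Rat.num_nonneg.mpr (h i)) (Int.natCast_nonneg c)
    refine ⟨((w i).num * c).toNat, ?_⟩
    rw [← h1]
    exact_mod_cast Int.toNat_of_nonneg h2
  choose m hm using hm
  exact ⟨_, m, hpos, hm⟩

end Pool.Agent.Lib.MP_95bb8c_al
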