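import Mathlib

set_option autoImplicit false

namespace Pool.Agent.Lib.MP_95bb8c_al

open Finset

section Multigraphs

variable {V E : Type} [Fintype V] [DecidableEq V] [Fintype E] [DecidableEq E]

/-- The cut of `S` in the multigraph with edges `E` and endpoints `s e`, `t e`: the edges with
exactly one endpoint in `S`. -/
def cut (s t : E → V) (S : Finset V) : Finset E :=
  univ.filter fun e => ¬ (s e ∈ S ↔ t e ∈ S)

/-- The multigraph is connected: each proper nonempty set of vertices has a nonempty cut. -/
def Conn (s t : E → V) : Prop :=
  ∀ S : Finset V, S.Nonempty → S ≠ univ → (cut s t S).Nonempty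

/-- A cycle of the multigraph with edges `E` and endpoints `s e`, `t e` (without loops): a
nonempty connected set of edges such that each vertex is on none or on two of them. -/
structure IsCycle (s t : E → V) (C : Finset E) : Prop where
  nonempty : C.Nonempty
  deg : ∀ v, (C ∩ cut s t {v}).card = 0 ∨ (C ∩ cut s t {v}).card = 2
  conn : ∀ S : Finset V, C ∩ cut s t S = ∅ → (∀ e ∈ C, s e ∈ S) ∨ ∀ e ∈ C, s e ∉ S

end Multigraphs

/-- The letters: `(a, true)` is the `a`-th generator and `(a, false)` is its inverse. -/
abbrev Letter (n : ℕ) : Type := Fin n × Bool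

/-- The inverse of a letter. -/
def bar {n : ℕ} (x : Letter n) : Letter n := (x.1, !x.2)

variable {n : ℕ}

/-- The positions in a list of words: a word of the list and a place in that word. -/
abbrev Pos (U : List (List (Letter n))) : Type := Σ j : Fin U.length, Fin (U.get j).length

variable {U : List (List (Letter n))}

/-- The letter at a position. -/
def Pos.letter (p : Pos U) : Letter n := (U.get p.1).get p.2

/-- The next position, cyclically. -/
def Pos.next (p : Pos U) : Pos U :=
  ⟨p.1, ⟨(p.2.1 + 1) % (U.get p.1).length, Nat.mod_lt _ (Nat.lt_of_le_of_lt (Nat.zero_le _) p.2.2)⟩⟩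

/-- The previous position, cyclically. -/
def Pos.prev (p : Pos U) : Pos U :=
  ⟨p.1, ⟨(p.2.1 + ((U.get p.1).length - 1)) % (U.get p.1).length,
    Nat.mod_lt _ (Nat.lt_of_le_of_lt (Nat.zero_le _) p.2.2)⟩⟩

/-- The Whitehead graph has one edge for each position `p`; it joins the letter `x` at `p` to the
inverse of the letter that follows `x`. -/
def src (U : List (List (Letter n))) (p : Pos U) : Letter n := p.letter

/-- The second endpoint of the edge `p`. -/
def tgt (U : List (List (Letter n))) (p : Pos U) : Letter n := bar p.next.letter

/-- The edges at the vertex `v`. -/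
def star (U : List (List (Letter n))) (v : Letter n) : Finset (Pos U) := cut (src U) (tgt U) {v}

/-- The connecting map. -/
def conMap (U : List (List (Letter n))) (v : Letter n) (p : Pos U) : Pos U :=
  if tgt U p = v then p.next else p.prev

/-- All words are nonempty and cyclically reduced. -/
def CycRed (U : List (List (Letter n))) : Prop :=
  (∀ u ∈ U, u ≠ []) ∧ ∀ p : Pos U, p.next.letter ≠ bar p.letter

/-- The local edge connectivity of `u` and `v`: the least size of a cut which separates them. -/
noncomputable def lam (U : List (List (Letter n))) (u v : Letter n) : ℕ :=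
  sInf {k | ∃ S : Finset (Letter n), u ∈ S ∧ v ∉ S ∧ (cut (src U) (tgt U) S).card = k}

/-- The number of occurrences of the generator `a` and of its inverse in `U`. -/
def occ (U : List (List (Letter n))) (a : Fin n) : ℕ :=
  (U.map fun u => u.countP fun x => x.1 = a).sum

end Pool.Agent.Lib.MP_95bb8c_al
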