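import Pool.Agent.Lib.MP_95bb8c_al.Defs

set_option autoImplicit false

namespace Pool.Agent.Lib.MP_95bb8c_al

open Finset

variable {V E : Type} [Fintype V] [DecidableEq V] [Fintype E] [DecidableEq E]

omit [Fintype V] [DecidableEq E] in
theorem mem_cut {s t : E → V} {S : Finset V} {e : E} :
    e ∈ cut s t S ↔ ¬ (s e ∈ S ↔ t e ∈ S) := by
  simp [cut]

omit [Fintype V] [DecidableEq E] in
theorem mem_cut_singleton {s t : E → V} {v : V} {e : E} :
    e ∈ cut s t {v} ↔ ¬ (s e = v ↔ t e = v) := by
  simp [cut]

/-- `M` is a perfect matching: each vertex is the end of exactly one edge of `M`. -/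
def IsPM (s t : E → V) (M : Finset E) : Prop := ∀ v, (M ∩ cut s t {v}).card = 1

/-- The perfect matching polytope, by Edmonds' description. -/
structure InQ (s t : E → V) (x : E → ℚ) : Prop where
  nonneg : ∀ e, 0 ≤ x e
  loop : ∀ e, s e = t e → x e = 0
  deg : ∀ v, ∑ e ∈ cut s t {v}, x e = 1
  odd : ∀ S : Finset V, Odd S.card → 1 ≤ ∑ e ∈ cut s t S, x e

/-- The support graph. -/
def suppG (s t : E → V) (x : E → ℚ) : SimpleGraph V where
  Adj u v := u ≠ v ∧ ∃ e, 0 < x e ∧ s(s e, t e) = s(u, v)
  symm := ⟨by
    rintro u v ⟨h, e, he, h2⟩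
    exact ⟨h.symm, e, he, h2.trans Sym2.eq_swap⟩⟩
  loopless := ⟨fun u h => h.1 rfl⟩

omit [Fintype V] [DecidableEq V] [Fintype E] [DecidableEq E] in
theorem suppG_adj {s t : E → V} {x : E → ℚ} {e : E} (h : 0 < x e) (hne : s e ≠ t e) :
    (suppG s t x).Adj (s e) (t e) := ⟨hne, e, h, rfl⟩

theorem no_violator {s t : E → V} {x : E → ℚ} (hx : InQ s t x) (U : Set V) :
    ¬ (suppG s t x).IsTutteViolator U := by
  classical
  intro hU
  unfold SimpleGraph.IsTutteViolator at hU
  set H := ((⊤ : (suppG s t x).Subgraph).deleteVerts U).coe with hH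
  have hverts : ∀ v, v ∈ ((⊤ : (suppG s t x).Subgraph).deleteVerts U).verts ↔ v ∉ U := by
    intro v
    simp
  let S : H.ConnectedComponent → Finset V := fun c =>
    univ.filter fun v => ∃ h : v ∈ ((⊤ : (suppG s t x).Subgraph).deleteVerts U).verts,
      H.connectedComponentMk ⟨v, h⟩ = c
  have hS : ∀ c v, v ∈ S c ↔ ∃ h : v ∈ ((⊤ : (suppG s t x).Subgraph).deleteVerts U).verts,
      H.connectedComponentMk ⟨v, h⟩ = c := by
    intro c v
    simp [S]
  have hcard : ∀ c : H.ConnectedComponent, (S c).card = c.supp.ncard := by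
    intro c
    rw [← Set.ncard_coe_finset, ← Set.ncard_image_of_injective c.supp Subtype.val_injective]
    congr 1
    ext v
    simp only [Finset.mem_coe, hS, Set.mem_image, SimpleGraph.ConnectedComponent.mem_supp_iff]
    constructor
    · rintro ⟨h, hc⟩
      exact ⟨⟨v, h⟩, hc, rfl⟩
    · rintro ⟨⟨w, hw⟩, hc, rfl⟩
      exact ⟨hw, hc⟩
  have : Fintype H.ConnectedComponent := Fintype.ofFinite _
  let O : Finset H.ConnectedComponent := univ.filter fun c => Odd (S c).card
  have hO : O.card = H.oddComponents.ncard := by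
    rw [← Set.ncard_coe_finset]
    congr 1
    ext c
    simp [O, hcard]
  let UF : Finset V := univ.filter fun v => v ∈ U
  have hUF : UF.card = U.ncard := by
    rw [← Set.ncard_coe_finset]
    congr 1
    ext c
    simp [UF]
  have key : ∀ e, x e * ((O.filter fun c => e ∈ cut s t (S c)).card : ℚ) ≤
      x e * ((UF.filter fun u => e ∈ cut s t {u}).card : ℚ) := by
    intro e
    rcases (hx.nonneg e).eq_or_lt with h0 | h0
    · rw [← h0]; simp
    refine mul_le_mul_of_nonneg_left ?_ h0.le
    have hne : s e ≠ t e := fun h => h0.ne' (hx.loop e h)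
    -- if an endpoint is in `S c` and the other one is not then the other one is in `U`
    have aux : ∀ a b c, s(s e, t e) = s(a, b) → a ∈ S c → b ∉ S c → b ∈ U := by
      intro a b c hab ha hb
      by_contra hbU
      apply hb
      obtain ⟨ha1, ha2⟩ := (hS c a).mp ha
      refine (hS c b).mpr ⟨(hverts b).mpr hbU, ?_⟩
      rw [← ha2, SimpleGraph.ConnectedComponent.eq]
      apply SimpleGraph.Adj.reachable
      have hadj : (suppG s t x).Adj b a := by
        have : a ≠ b := by
          rintro rfl
          exact hb ha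
        exact ⟨this.symm, e, h0, hab.trans Sym2.eq_swap⟩
      rw [hH]
      simp only [SimpleGraph.Subgraph.coe_adj, SimpleGraph.Subgraph.deleteVerts_adj,
        SimpleGraph.Subgraph.verts_top, Set.mem_univ, true_and, SimpleGraph.Subgraph.top_adj]
      exact ⟨hbU, (hverts a).mp ha1, hadj⟩
    have hSU : ∀ c a, a ∈ S c → a ∉ U := by
      intro c a ha
      obtain ⟨ha1, -⟩ := (hS c a).mp ha
      exact (hverts a).mp ha1
    have huniq : ∀ c c' a, a ∈ S c → a ∈ S c' → c = c' := by
      intro c c' a h1 h2
      obtain ⟨_, h3⟩ := (hS c a).mp h1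
      obtain ⟨_, h4⟩ := (hS c' a).mp h2
      exact h3.symm.trans h4
    rcases Finset.eq_empty_or_nonempty (O.filter fun c => e ∈ cut s t (S c)) with h1 | ⟨c, hc⟩
    · rw [h1]; simp
    have hc' := (Finset.mem_filter.mp hc).2
    rw [mem_cut] at hc'
    have h1 : (O.filter fun c => e ∈ cut s t (S c)).card ≤ 1 := by
      rw [Finset.card_le_one]
      intro c1 h1 c2 h2
      have h1' := (Finset.mem_filter.mp h1).2
      have h2' := (Finset.mem_filter.mp h2).2
      rw [mem_cut] at h1' h2'
      by_cases hs1 : s e ∈ S c1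
      · have ht1 : t e ∈ U := aux (s e) (t e) c1 rfl hs1 (fun h => h1' ⟨fun _ => h, fun _ => hs1⟩)
        have hs2 : s e ∈ S c2 := by
          by_contra hs2
          have ht2 : t e ∈ S c2 := by
            by_contra ht2
            exact h2' ⟨fun h => absurd h hs2, fun h => absurd h ht2⟩
          exact hSU _ _ ht2 ht1
        exact huniq _ _ _ hs1 hs2
      · have ht1 : t e ∈ S c1 := by
          by_contra ht1
          exact h1' ⟨fun h => absurd h hs1, fun h => absurd h ht1⟩
        have hs1' : s e ∈ U := aux (t e) (s e) c1 Sym2.eq_swap ht1 hs1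
        have ht2 : t e ∈ S c2 := by
          by_contra ht2
          have hs2 : s e ∈ S c2 := by
            by_contra hs2
            exact h2' ⟨fun h => absurd h hs2, fun h => absurd h ht2⟩
          exact hSU _ _ hs2 hs1'
        exact huniq _ _ _ ht1 ht2
    have h2 : 1 ≤ (UF.filter fun u => e ∈ cut s t {u}).card := by
      rw [Nat.succ_le_iff, Finset.card_pos]
      by_cases hs1 : s e ∈ S c
      · have ht1 : t e ∈ U := aux (s e) (t e) c rfl hs1 (fun h => hc' ⟨fun _ => h, fun _ => hs1⟩)
        refine ⟨t e, ?_⟩
        simp only [UF, Finset.mem_filter, Finset.mem_univ, true_and]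
        exact ⟨ht1, by rw [mem_cut_singleton]; simp [hne]⟩
      · have ht1 : t e ∈ S c := by
          by_contra ht1
          exact hc' ⟨fun h => absurd h hs1, fun h => absurd h ht1⟩
        have hs1' : s e ∈ U := aux (t e) (s e) c Sym2.eq_swap ht1 hs1
        refine ⟨s e, ?_⟩
        simp only [UF, Finset.mem_filter, Finset.mem_univ, true_and]
        exact ⟨hs1', by rw [mem_cut_singleton]; simp [hne.symm]⟩
    exact_mod_cast h1.trans h2
  have e1 : (O.card : ℚ) ≤ ∑ c ∈ O, ∑ e ∈ cut s t (S c), x e := by
    rw [Finset.card_eq_sum_ones, Nat.cast_sum]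
    apply Finset.sum_le_sum
    intro c hc
    rw [Nat.cast_one]
    exact hx.odd _ (Finset.mem_filter.mp hc).2
  have e2 : ∑ c ∈ O, ∑ e ∈ cut s t (S c), x e =
      ∑ e, x e * ((O.filter fun c => e ∈ cut s t (S c)).card : ℚ) := by
    have : ∀ c, ∑ e ∈ cut s t (S c), x e = ∑ e, if e ∈ cut s t (S c) then x e else 0 := by
      intro c
      rw [← Finset.sum_filter]
      apply Finset.sum_congr _ (fun _ _ => rfl)
      ext e
      simp
    simp_rw [this]
    rw [Finset.sum_comm]
    apply Finset.sum_congr rfl
    intro e _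
    rw [← Finset.sum_filter, Finset.sum_const, nsmul_eq_mul, mul_comm]
  have e3 : ∑ u ∈ UF, ∑ e ∈ cut s t {u}, x e =
      ∑ e, x e * ((UF.filter fun u => e ∈ cut s t {u}).card : ℚ) := by
    have : ∀ u, ∑ e ∈ cut s t {u}, x e = ∑ e, if e ∈ cut s t {u} then x e else 0 := by
      intro c
      rw [← Finset.sum_filter]
      apply Finset.sum_congr _ (fun _ _ => rfl)
      ext e
      simp
    simp_rw [this]
    rw [Finset.sum_comm]
    apply Finset.sum_congr rfl
    intro e _
    rw [← Finset.sum_filter, Finset.sum_const, nsmul_eq_mul, mul_comm]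
  have e4 : ∑ u ∈ UF, ∑ e ∈ cut s t {u}, x e = (UF.card : ℚ) := by
    rw [Finset.sum_congr rfl (fun u _ => hx.deg u)]
    simp
  have h5 : (O.card : ℚ) ≤ (UF.card : ℚ) := by
    rw [← e4, e3]
    refine e1.trans ?_
    rw [e2]
    exact Finset.sum_le_sum fun e _ => key e
  have h6 : O.card ≤ UF.card := by exact_mod_cast h5
  rw [hO, hUF] at h6
  omega

/-- A point of Edmonds' polytope has a perfect matching in its support. -/
theorem exists_pm {s t : E → V} {x : E → ℚ} (hx : InQ s t x) :
    ∃ M : Finset E, IsPM s t M ∧ ∀ e ∈ M, 0 < x e := by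
  classical
  obtain ⟨P, hP⟩ := SimpleGraph.tutte.mpr (no_violator hx)
  have hadj : ∀ p ∈ P.edgeSet, ∃ e, 0 < x e ∧ s(s e, t e) = p := by
    intro p
    induction p with
    | _ u v =>
      intro hp
      have := P.adj_sub (SimpleGraph.Subgraph.mem_edgeSet.mp hp)
      exact this.2
  choose g hg1 hg2 using hadj
  let M : Finset E := univ.filter fun e => ∃ p, ∃ hp : p ∈ P.edgeSet, g p hp = e
  have hM : ∀ e, e ∈ M ↔ ∃ p, ∃ hp : p ∈ P.edgeSet, g p hp = e := by
    intro e; simp [M]
  refine ⟨M, ?_, ?_⟩
  · intro v
    rw [SimpleGraph.Subgraph.isPerfectMatching_iff] at hP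
    obtain ⟨w, hw, huniq⟩ := hP v
    have hvw : s(v, w) ∈ P.edgeSet := SimpleGraph.Subgraph.mem_edgeSet.mpr hw
    have hne : v ≠ w := hw.ne
    rw [Finset.card_eq_one]
    refine ⟨g _ hvw, ?_⟩
    ext e
    rw [Finset.mem_inter, Finset.mem_singleton, hM, mem_cut_singleton]
    constructor
    · rintro ⟨⟨p, hp, rfl⟩, hcut⟩
      have h2 := hg2 p hp
      have hv : v ∈ p := by
        rw [← h2, Sym2.mem_iff]
        by_contra hcon
        push Not at hcon
        exact hcut ⟨fun h => absurd h.symm hcon.1, fun h => absurd h.symm hcon.2⟩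
      obtain ⟨w', rfl⟩ := hv
      have : w' = w := huniq w' (SimpleGraph.Subgraph.mem_edgeSet.mp hp)
      subst this
      rfl
    · rintro rfl
      refine ⟨⟨_, hvw, rfl⟩, ?_⟩
      have h2 := hg2 _ hvw
      rw [Sym2.eq_iff] at h2
      rcases h2 with ⟨h3, h4⟩ | ⟨h3, h4⟩
      · rw [h3, h4]; simp [hne.symm]
      · rw [h3, h4]; simp [hne.symm]
  · intro e he
    obtain ⟨p, hp, rfl⟩ := (hM e).mp he
    exact hg1 p hp

/-- `x` is a convex combination of perfect matchings. -/
def Conv (s t : E → V) (x : E → ℚ) : Prop :=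
  ∃ (ι : Type) (_ : Fintype ι) (w : ι → ℚ) (M : ι → Finset E), (∀ i, 0 ≤ w i) ∧
    (∀ i, w i ≠ 0 → IsPM s t (M i)) ∧ ∑ i, w i = 1 ∧ ∀ e, ∑ i, (if e ∈ M i then w i else 0) = x e

omit [Fintype V] in
theorem Conv.mix {s t : E → V} {x y z : E → ℚ} {l : ℚ} (hx : Conv s t x) (hy : Conv s t y)
    (hl0 : 0 ≤ l) (hl1 : l ≤ 1) (hz : ∀ e, z e = l * x e + (1 - l) * y e) : Conv s t z := by
  obtain ⟨ι, hι, w, M, h1, h2, h3, h4⟩ := hx
  obtain ⟨κ, hκ, w', M', h1', h2', h3', h4'⟩ := hy
  refine ⟨ι ⊕ κ, inferInstance, Sum.elim (fun i => l * w i) (fun i => (1 - l) * w' i),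
    Sum.elim M M', ?_, ?_, ?_, ?_⟩
  · rintro (i | i)
    · exact mul_nonneg hl0 (h1 i)
    · exact mul_nonneg (by linarith) (h1' i)
  · rintro (i | i) h
    · exact h2 i (right_ne_zero_of_mul h)
    · exact h2' i (right_ne_zero_of_mul h)
  · simp only [Fintype.sum_sum_type, Sum.elim_inl, Sum.elim_inr]
    rw [← Finset.mul_sum, ← Finset.mul_sum, h3, h3']
    ring
  · intro e
    rw [Fintype.sum_sum_type, hz e, ← h4 e, ← h4' e, Finset.mul_sum, Finset.mul_sum]
    congr 1
    · apply Finset.sum_congr rfl
      intro i _
      by_cases he : e ∈ M i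
      · rw [if_pos he, if_pos (show e ∈ Sum.elim M M' (Sum.inl i) from he)]
        rfl
      · rw [if_neg he, if_neg (show e ∉ Sum.elim M M' (Sum.inl i) from he), mul_zero]
    · apply Finset.sum_congr rfl
      intro i _
      by_cases he : e ∈ M' i
      · rw [if_pos he, if_pos (show e ∈ Sum.elim M M' (Sum.inr i) from he)]
        rfl
      · rw [if_neg he, if_neg (show e ∉ Sum.elim M M' (Sum.inr i) from he), mul_zero]

omit [Fintype E] in
theorem mem_supp {x : E → ℚ} {ι : Type} [Fintype ι] {w : ι → ℚ}
    {M : ι → Finset E} (h1 : ∀ i, 0 ≤ w i)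
    (h4 : ∀ e, ∑ i, (if e ∈ M i then w i else 0) = x e) {i : ι} {e : E} (hx : x e = 0)
    (hw : w i ≠ 0) : e ∉ M i := by
  intro he
  have := h4 e
  rw [hx, Finset.sum_eq_zero_iff_of_nonneg] at this
  · have h5 := this i (Finset.mem_univ i)
    rw [if_pos he] at h5
    exact hw h5
  · intro j _
    split_ifs
    · exact h1 j
    · exact le_rfl

/-- The contraction of the complement of `S` to a point. -/
def contr (S : Finset V) (v : V) : Option {v // v ∈ S} := if h : v ∈ S then some ⟨v, h⟩ else none

omit [Fintype V] in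
theorem contr_mem {S : Finset V} {v : V} (h : v ∈ S) : contr S v = some ⟨v, h⟩ := dif_pos h

omit [Fintype V] in
theorem contr_not_mem {S : Finset V} {v : V} (h : v ∉ S) : contr S v = none := dif_neg h

/-- The edges with an endpoint in `S`. -/
def touch (s t : E → V) (S : Finset V) : Finset E := univ.filter fun e => s e ∈ S ∨ t e ∈ S

omit [Fintype V] [DecidableEq E] in
theorem mem_touch {s t : E → V} {S : Finset V} {e : E} :
    e ∈ touch s t S ↔ (s e ∈ S ∨ t e ∈ S) := by
  simp [touch]

omit [DecidableEq E] in
theorem even_card {s t : E → V} {x : E → ℚ} (hx : InQ s t x) : Even (Fintype.card V) := by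
  by_contra h
  rw [Nat.not_even_iff_odd] at h
  have h1 := hx.odd univ (by rwa [Finset.card_univ])
  have h2 : cut s t (univ : Finset V) = ∅ := by
    ext e
    simp [mem_cut]
  rw [h2, Finset.sum_empty] at h1
  linarith

theorem inQ_contr {s t : E → V} {x : E → ℚ} (hx : InQ s t x) {S : Finset V} (hS : Odd S.card)
    (ht : ∑ e ∈ cut s t S, x e = 1) :
    InQ (fun e => contr S (s e)) (fun e => contr S (t e))
      (fun e => if e ∈ touch s t S then x e else 0) := by
  have hcS : Odd (univ \ S).card := by
    have h1 := even_card hx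
    have h2 : (univ \ S).card + S.card = Fintype.card V := by
      rw [Finset.card_sdiff_add_card_eq_card (Finset.subset_univ _), Finset.card_univ]
    rw [← h2] at h1
    rcases Nat.even_or_odd (univ \ S).card with h3 | h3
    · exact absurd h1 (Nat.not_even_iff_odd.mpr (h3.add_odd hS))
    · exact h3
  -- the sum over the cut of the preimage
  have hpre : ∀ A : Finset (Option {v // v ∈ S}),
      ∑ e ∈ cut (fun e => contr S (s e)) (fun e => contr S (t e)) A,
        (if e ∈ touch s t S then x e else 0) =
      ∑ e ∈ cut s t (univ.filter fun v => contr S v ∈ A), x e := by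
    intro A
    have h1 : cut (fun e => contr S (s e)) (fun e => contr S (t e)) A =
        cut s t (univ.filter fun v => contr S v ∈ A) := by
      ext e
      simp [mem_cut]
    rw [h1]
    apply Finset.sum_congr rfl
    intro e he
    rw [if_pos]
    rw [mem_touch]
    by_contra hcon
    push Not at hcon
    rw [mem_cut] at he
    apply he
    simp only [Finset.mem_filter, Finset.mem_univ, true_and]
    rw [contr_not_mem hcon.1, contr_not_mem hcon.2]
  constructor
  · intro e
    split_ifs
    · exact hx.nonneg e
    · exact le_rfl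
  · intro e he
    split_ifs with h
    · apply hx.loop
      rw [mem_touch] at h
      by_cases h1 : s e ∈ S
      · by_cases h2 : t e ∈ S
        · rw [contr_mem h1, contr_mem h2] at he
          simpa using he
        · rw [contr_mem h1, contr_not_mem h2] at he
          cases he
      · by_cases h2 : t e ∈ S
        · rw [contr_not_mem h1, contr_mem h2] at he
          cases he
        · exact absurd h (by tauto)
    · rfl
  · intro v
    rw [hpre]
    rcases v with _ | ⟨v, hv⟩
    · have h1 : (univ.filter fun v => contr S v ∈ ({none} : Finset (Option {v // v ∈ S}))) =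
          univ \ S := by
        ext v
        by_cases h : v ∈ S
        · simp [contr_mem h, h]
        · simp [contr_not_mem h, h]
      rw [h1]
      have h2 : cut s t (univ \ S) = cut s t S := by
        ext e
        simp [mem_cut]
        tauto
      rw [h2, ht]
    · have h1 : (univ.filter fun w => contr S w ∈ ({some ⟨v, hv⟩} : Finset (Option {v // v ∈ S}))) =
          {v} := by
        ext w
        by_cases h : w ∈ S
        · simp [contr_mem h]
        · simp only [contr_not_mem h, Finset.mem_filter, Finset.mem_univ, true_and,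
            Finset.mem_singleton, reduceCtorEq, false_iff]
          rintro rfl
          exact h hv
      rw [h1, hx.deg]
  · intro A hA
    rw [hpre]
    apply hx.odd
    -- the parity of the preimage
    have h1 : (univ.filter fun v => contr S v ∈ A) =
        (A.preimage some (Option.some_injective _).injOn).map (Function.Embedding.subtype _) ∪
          (if none ∈ A then univ \ S else ∅) := by
      ext v
      by_cases h : v ∈ S
      · simp only [Finset.mem_filter, Finset.mem_univ, true_and, contr_mem h, Finset.mem_union,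
          Finset.mem_map, Finset.mem_preimage, Function.Embedding.subtype_apply, Subtype.exists,
          exists_and_right, exists_eq_right]
        constructor
        · intro h2
          exact Or.inl ⟨h, h2⟩
        · rintro (⟨_, h2⟩ | h2)
          · exact h2
          · split_ifs at h2
            · exact absurd h (Finset.mem_sdiff.mp h2).2
            · simp at h2
      · simp only [Finset.mem_filter, Finset.mem_univ, true_and, contr_not_mem h, Finset.mem_union,
          Finset.mem_map, Finset.mem_preimage, Function.Embedding.subtype_apply, Subtype.exists,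
          exists_and_right, exists_eq_right]
        constructor
        · intro h2
          right
          rw [if_pos h2]
          simp [h]
        · rintro (⟨h2, _⟩ | h2)
          · exact absurd h2 h
          · by_contra h3
            rw [if_neg h3] at h2
            simp at h2
    rw [h1, Finset.card_union_of_disjoint, Finset.card_map]
    · have h2 : A.card = (A.preimage some (Option.some_injective _).injOn).card +
          (if none ∈ A then 1 else 0) := by
        have h3 : A = (A.preimage some (Option.some_injective _).injOn).map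
            Function.Embedding.some ∪ (if none ∈ A then {none} else ∅) := by
          ext v
          rcases v with _ | v
          · by_cases h : none ∈ A <;> simp [h]
          · by_cases h : none ∈ A <;> simp [h]
        conv_lhs => rw [h3]
        rw [Finset.card_union_of_disjoint, Finset.card_map]
        · split_ifs <;> simp
        · split_ifs
          · simp
          · simp
      rw [h2] at hA
      by_cases h : none ∈ A
      · rw [if_pos h] at hA ⊢
        rcases Nat.even_or_odd (A.preimage some (Option.some_injective _).injOn).card with h3 | h3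
        · exact h3.add_odd hcS
        · exact absurd (h3.add_odd odd_one) (Nat.not_even_iff_odd.mpr hA)
      · rw [if_neg h] at hA ⊢
        simpa using hA
    · rw [Finset.disjoint_left]
      intro v hv hv2
      simp only [Finset.mem_map, Finset.mem_preimage, Function.Embedding.subtype_apply,
        Subtype.exists, exists_and_right, exists_eq_right] at hv
      split_ifs at hv2
      · exact (Finset.mem_sdiff.mp hv2).2 hv.1
      · simp at hv2

omit [Fintype E] in
theorem marg {C : Finset E} {x : E → ℚ} {ι κ : Type} [Fintype κ] {w : ι → ℚ} {M : ι → Finset E}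
    {w' : κ → ℚ} {M' : κ → Finset E}
    (hx : ∀ f ∈ C, ∑ j, (if f ∈ M' j then w' j else 0) = x f) (i : ι)
    (hi : w i ≠ 0 → ∃ f, M i ∩ C = {f} ∧ x f ≠ 0) :
    ∑ j, ∑ f ∈ C, (if f ∈ M i ∧ f ∈ M' j then w i * w' j / x f else 0) = w i := by
  by_cases h0 : w i = 0
  · rw [h0]
    simp
  obtain ⟨f, hf, hxf⟩ := hi h0
  rw [Finset.sum_comm]
  have hfC : f ∈ C := (Finset.mem_inter.mp (hf.symm ▸ Finset.mem_singleton_self f)).2
  have hfM : f ∈ M i := (Finset.mem_inter.mp (hf.symm ▸ Finset.mem_singleton_self f)).1
  rw [Finset.sum_eq_single_of_mem f hfC]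
  · have : ∀ j, (if f ∈ M i ∧ f ∈ M' j then w i * w' j / x f else 0) =
        (w i / x f) * (if f ∈ M' j then w' j else 0) := by
      intro j
      by_cases h : f ∈ M' j
      · rw [if_pos ⟨hfM, h⟩, if_pos h]
        ring
      · rw [if_neg (fun h2 => h h2.2), if_neg h, mul_zero]
    simp_rw [this]
    rw [← Finset.mul_sum, hx f hfC, div_mul_cancel₀ _ hxf]
  · intro g hg hgf
    apply Finset.sum_eq_zero
    intro j _
    rw [if_neg]
    rintro ⟨h1, _⟩
    have : g ∈ M i ∩ C := Finset.mem_inter.mpr ⟨h1, hg⟩
    rw [hf, Finset.mem_singleton] at this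
    exact hgf this

omit [DecidableEq E] in
theorem cut_compl {s t : E → V} (S : Finset V) : cut s t (univ \ S) = cut s t S := by
  ext e
  simp [mem_cut]
  tauto

omit [Fintype V] in
theorem pm_contr {s t : E → V} {S : Finset V} {M : Finset E}
    (h : IsPM (fun e => contr S (s e)) (fun e => contr S (t e)) M) :
    (M ∩ cut s t S).card = 1 ∧ ∀ a ∈ S, (M ∩ cut s t {a}).card = 1 := by
  constructor
  · rw [← h none]
    congr 2
    ext e
    rw [mem_cut, mem_cut_singleton]
    by_cases h1 : s e ∈ S
    · by_cases h2 : t e ∈ S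
      · simp [contr_mem h1, contr_mem h2, h1, h2]
      · simp [contr_mem h1, contr_not_mem h2, h1, h2]
    · by_cases h2 : t e ∈ S
      · simp [contr_not_mem h1, contr_mem h2, h1, h2]
      · simp [contr_not_mem h1, contr_not_mem h2, h1, h2]
  · intro a ha
    rw [← h (some ⟨a, ha⟩)]
    congr 2
    have key : ∀ v, contr S v = some ⟨a, ha⟩ ↔ v = a := by
      intro v
      by_cases h1 : v ∈ S
      · simp [contr_mem h1]
      · simp only [contr_not_mem h1, reduceCtorEq, false_iff]
        rintro rfl
        exact h1 ha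
    ext e
    rw [mem_cut_singleton, mem_cut_singleton, key, key]

omit [Fintype V] in
theorem glue_aux {s t : E → V} {S T : Finset V} {A B : Finset E} {f : E}
    (hST : ∀ v, v ∈ S → v ∉ T)
    (hA : ∀ a ∈ S, (A ∩ cut s t {a}).card = 1) (hfA : f ∈ A) (hfB : B ∩ cut s t S = {f})
    (hB : B ⊆ touch s t T) {v : V} (hv : v ∈ S) : ((A ∪ B) ∩ cut s t {v}).card = 1 := by
  rw [← hA v hv]
  congr 1
  ext e
  simp only [Finset.mem_inter, Finset.mem_union]
  constructor
  · rintro ⟨h1 | h1, h2⟩
    · exact ⟨h1, h2⟩
    · refine ⟨?_, h2⟩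
      have h3 := mem_touch.mp (hB h1)
      have h4 : e ∈ B ∩ cut s t S := by
        refine Finset.mem_inter.mpr ⟨h1, ?_⟩
        rw [mem_cut]
        rw [mem_cut_singleton] at h2
        intro h5
        by_cases h6 : s e = v
        · have h7 : s e ∈ S := h6 ▸ hv
          rcases h3 with h3 | h3
          · exact hST _ h7 h3
          · exact hST _ (h5.mp h7) h3
        · have h6' : t e = v := by
            by_contra h8
            exact h2 ⟨fun h => absurd h h6, fun h => absurd h h8⟩
          have h7 : t e ∈ S := h6' ▸ hv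
          rcases h3 with h3 | h3
          · exact hST _ (h5.mpr h7) h3
          · exact hST _ h7 h3
      rw [hfB, Finset.mem_singleton] at h4
      rw [h4]
      exact hfA
  · rintro ⟨h1, h2⟩
    exact ⟨Or.inl h1, h2⟩

/-- Gluing along a tight odd cut. -/
theorem glue {s t : E → V} {x : E → ℚ} {S : Finset V}
    (c1 : Conv (fun e => contr S (s e)) (fun e => contr S (t e))
      (fun e => if e ∈ touch s t S then x e else 0))
    (c2 : Conv (fun e => contr (univ \ S) (s e)) (fun e => contr (univ \ S) (t e))
      (fun e => if e ∈ touch s t (univ \ S) then x e else 0)) : Conv s t x := by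
  obtain ⟨ι, hι, w, M, w0, wpm, w1, wx⟩ := c1
  obtain ⟨κ, hκ, w', M', w0', wpm', w1', wx'⟩ := c2
  set T := univ \ S with hT
  have hcut : cut s t T = cut s t S := cut_compl S
  have hsub : ∀ i, w i ≠ 0 → M i ⊆ touch s t S := by
    intro i hi e he
    by_contra h
    exact mem_supp w0 wx (i := i) (e := e) (if_neg h) hi he
  have hsub' : ∀ i, w' i ≠ 0 → M' i ⊆ touch s t T := by
    intro i hi e he
    by_contra h
    exact mem_supp w0' wx' (i := i) (e := e) (if_neg h) hi he
  have hcS : ∀ f ∈ cut s t S, f ∈ touch s t S := by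
    intro f hf
    rw [mem_cut] at hf
    rw [mem_touch]
    tauto
  have hcT : ∀ f ∈ cut s t S, f ∈ touch s t T := by
    intro f hf
    rw [← hcut, mem_cut] at hf
    rw [mem_touch]
    tauto
  have hx1 : ∀ f ∈ cut s t S, ∑ j, (if f ∈ M j then w j else 0) = x f := by
    intro f hf
    exact (wx f).trans (if_pos (hcS f hf))
  have hx2 : ∀ f ∈ cut s t S, ∑ j, (if f ∈ M' j then w' j else 0) = x f := by
    intro f hf
    exact (wx' f).trans (if_pos (hcT f hf))
  have hi1 : ∀ i, w i ≠ 0 → ∃ f, M i ∩ cut s t S = {f} ∧ x f ≠ 0 := by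
    intro i hi
    obtain ⟨f, hf⟩ := Finset.card_eq_one.mp (pm_contr (wpm i hi)).1
    refine ⟨f, hf, ?_⟩
    intro h0
    have hfm := Finset.mem_inter.mp (hf.symm ▸ Finset.mem_singleton_self f)
    exact mem_supp w0 wx (i := i) (e := f) (by rw [if_pos (hcS f hfm.2), h0]) hi hfm.1
  have hi2 : ∀ i, w' i ≠ 0 → ∃ f, M' i ∩ cut s t S = {f} ∧ x f ≠ 0 := by
    intro i hi
    obtain ⟨f, hf⟩ := Finset.card_eq_one.mp (pm_contr (wpm' i hi)).1
    rw [hcut] at hf
    refine ⟨f, hf, ?_⟩
    intro h0
    have hfm := Finset.mem_inter.mp (hf.symm ▸ Finset.mem_singleton_self f)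
    exact mem_supp w0' wx' (i := i) (e := f) (by rw [if_pos (hcT f hfm.2), h0]) hi hfm.1
  let W : ι × κ → ℚ := fun p =>
    ∑ f ∈ cut s t S, (if f ∈ M p.1 ∧ f ∈ M' p.2 then w p.1 * w' p.2 / x f else 0)
  have hW : ∀ p, W p = ∑ f ∈ cut s t S,
      (if f ∈ M p.1 ∧ f ∈ M' p.2 then w p.1 * w' p.2 / x f else 0) := fun p => rfl
  have hWnn : ∀ p, 0 ≤ W p := by
    intro p
    rw [hW]
    apply Finset.sum_nonneg
    intro f hf
    split_ifs
    · apply div_nonneg (mul_nonneg (w0 _) (w0' _))
      rw [← hx1 f hf]
      apply Finset.sum_nonneg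
      intro j _
      split_ifs
      · exact w0 j
      · exact le_rfl
    · exact le_rfl
  have hWne : ∀ p, W p ≠ 0 → w p.1 ≠ 0 ∧ w' p.2 ≠ 0 ∧
      ∃ f, f ∈ cut s t S ∧ f ∈ M p.1 ∧ f ∈ M' p.2 := by
    intro p hp
    obtain ⟨f, hf, hne⟩ := Finset.exists_ne_zero_of_sum_ne_zero hp
    by_cases h : f ∈ M p.1 ∧ f ∈ M' p.2
    · rw [if_pos h] at hne
      have h1 : w p.1 * w' p.2 ≠ 0 := fun h0 => hne (by rw [h0, zero_div])
      exact ⟨left_ne_zero_of_mul h1, right_ne_zero_of_mul h1, f, hf, h.1, h.2⟩
    · rw [if_neg h] at hne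
      exact absurd rfl hne
  have m1 : ∀ i, ∑ j, W (i, j) = w i := fun i => marg hx2 i (hi1 i)
  have m2 : ∀ j, ∑ i, W (i, j) = w' j := by
    intro j
    have := marg (w := w') (M := M') (w' := w) (M' := M) hx1 j (hi2 j)
    rw [← this]
    apply Finset.sum_congr rfl
    intro i _
    rw [hW]
    apply Finset.sum_congr rfl
    intro f _
    simp only [and_comm, mul_comm]
  -- the intersections with the cut
  have hcapf : ∀ p, W p ≠ 0 → ∀ f, f ∈ cut s t S → f ∈ M p.1 → f ∈ M' p.2 →
      M p.1 ∩ cut s t S = {f} ∧ M' p.2 ∩ cut s t S = {f} := by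
    intro p hp f hf h1 h2
    obtain ⟨n1, n2, -⟩ := hWne p hp
    obtain ⟨g, hg, -⟩ := hi1 _ n1
    obtain ⟨g', hg', -⟩ := hi2 _ n2
    have e1 : f = g := by
      have : f ∈ M p.1 ∩ cut s t S := Finset.mem_inter.mpr ⟨h1, hf⟩
      rw [hg] at this
      exact Finset.mem_singleton.mp this
    have e2 : f = g' := by
      have : f ∈ M' p.2 ∩ cut s t S := Finset.mem_inter.mpr ⟨h2, hf⟩
      rw [hg'] at this
      exact Finset.mem_singleton.mp this
    exact ⟨by rw [hg, e1], by rw [hg', e2]⟩
  refine ⟨ι × κ, inferInstance, W, fun p => M p.1 ∪ M' p.2, hWnn, ?_, ?_, ?_⟩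
  · intro p hp v
    obtain ⟨n1, n2, f, hf, h1, h2⟩ := hWne p hp
    obtain ⟨e1, e2⟩ := hcapf p hp f hf h1 h2
    by_cases hv : v ∈ S
    · exact glue_aux (T := T) (f := f) (fun v h => by simp [hT, h])
        (pm_contr (wpm _ n1)).2 h1 e2 (hsub' _ n2) hv
    · have hv' : v ∈ T := by simp [hT, hv]
      show ((M p.1 ∪ M' p.2) ∩ cut s t {v}).card = 1
      rw [Finset.union_comm]
      exact glue_aux (T := S) (f := f) (fun v h => by simpa [hT] using h)
        (pm_contr (wpm' _ n2)).2 h2 (by rw [hcut]; exact e1) (hsub _ n1) hv'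
  · rw [Fintype.sum_prod_type]
    simp_rw [m1]
    exact w1
  · intro e
    by_cases he : e ∈ touch s t S
    · have h1 : ∀ p : ι × κ, (if e ∈ M p.1 ∪ M' p.2 then W p else 0) =
          (if e ∈ M p.1 then W p else 0) := by
        intro p
        by_cases hp : W p = 0
        · rw [hp]; simp
        obtain ⟨n1, n2, f, hf, h1, h2⟩ := hWne p hp
        obtain ⟨e1, e2⟩ := hcapf p hp f hf h1 h2
        have : e ∈ M p.1 ∪ M' p.2 ↔ e ∈ M p.1 := by
          constructor
          · intro h
            rcases Finset.mem_union.mp h with h | h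
            · exact h
            · have h3 := mem_touch.mp (hsub' _ n2 h)
              have h4 : e ∈ cut s t S := by
                rw [mem_cut]
                rw [mem_touch] at he
                simp only [hT, Finset.mem_sdiff, Finset.mem_univ, true_and] at h3
                tauto
              have h5 : e ∈ M' p.2 ∩ cut s t S := Finset.mem_inter.mpr ⟨h, h4⟩
              rw [e2, Finset.mem_singleton] at h5
              rw [h5]
              exact h1
          · intro h
            exact Finset.mem_union_left _ h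
        simp only [this]
      simp_rw [h1]
      rw [Fintype.sum_prod_type]
      have h2 : ∀ i, ∑ j, (if e ∈ M (i, j).1 then W (i, j) else 0) = if e ∈ M i then w i else 0 := by
        intro i
        by_cases h : e ∈ M i
        · simp only [h, if_true]
          exact m1 i
        · simp [h]
      simp_rw [h2]
      exact (wx e).trans (if_pos he)
    · have h1 : ∀ p : ι × κ, (if e ∈ M p.1 ∪ M' p.2 then W p else 0) =
          (if e ∈ M' p.2 then W p else 0) := by
        intro p
        by_cases hp : W p = 0
        · rw [hp]; simp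
        obtain ⟨n1, n2, f, hf, h1, h2⟩ := hWne p hp
        have : e ∈ M p.1 ∪ M' p.2 ↔ e ∈ M' p.2 := by
          constructor
          · intro h
            rcases Finset.mem_union.mp h with h | h
            · exact absurd (hsub _ n1 h) he
            · exact h
          · intro h
            exact Finset.mem_union_right _ h
        simp only [this]
      simp_rw [h1]
      rw [Fintype.sum_prod_type, Finset.sum_comm]
      have h2 : ∀ j, ∑ i, (if e ∈ M' (i, j).2 then W (i, j) else 0) =
          if e ∈ M' j then w' j else 0 := by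
        intro j
        by_cases h : e ∈ M' j
        · simp only [h, if_true]
          exact m2 j
        · simp [h]
      simp_rw [h2]
      refine (wx' e).trans (if_pos ?_)
      rw [mem_touch] at he ⊢
      simp only [hT, Finset.mem_sdiff, Finset.mem_univ, true_and]
      tauto

omit [Fintype V] in
theorem conv_single {s t : E → V} {M : Finset E} (h : IsPM s t M) :
    Conv s t (fun e => if e ∈ M then 1 else 0) :=
  ⟨Unit, inferInstance, fun _ => 1, fun _ => M, fun _ => zero_le_one, fun _ _ => h, by simp,
    fun e => by simp⟩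

theorem tight_case {s t : E → V} {x : E → ℚ} (hx : InQ s t x)
    (IH : ∀ (V' : Type) [Fintype V'] [DecidableEq V'], Fintype.card V' < Fintype.card V →
      ∀ (s' t' : E → V') (x' : E → ℚ), InQ s' t' x' → Conv s' t' x')
    {S : Finset V} (hS : Odd S.card) (h1 : 1 < S.card) (h2 : S.card + 1 < Fintype.card V)
    (ht : ∑ e ∈ cut s t S, x e = 1) : Conv s t x := by
  have hc : (univ \ S).card + S.card = Fintype.card V := by
    rw [Finset.card_sdiff_add_card_eq_card (Finset.subset_univ _), Finset.card_univ]
  have hS' : Odd (univ \ S).card := by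
    have h1 := even_card hx
    rw [← hc] at h1
    rcases Nat.even_or_odd (univ \ S).card with h3 | h3
    · exact absurd h1 (Nat.not_even_iff_odd.mpr (h3.add_odd hS))
    · exact h3
  refine glue (S := S) (IH _ ?_ _ _ _ (inQ_contr hx hS ht)) (IH _ ?_ _ _ _ (inQ_contr hx hS' ?_))
  · rw [Fintype.card_option, Fintype.card_coe]
    exact h2
  · rw [Fintype.card_option, Fintype.card_coe]
    omega
  · rw [cut_compl, ht]

theorem edmonds_aux (IH : ∀ (V' : Type) [Fintype V'] [DecidableEq V'],
      Fintype.card V' < Fintype.card V →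
      ∀ (s' t' : E → V') (x' : E → ℚ), InQ s' t' x' → Conv s' t' x') (s t : E → V) (k : ℕ) :
    ∀ x : E → ℚ, InQ s t x → (univ.filter fun e => x e ≠ 0).card = k → Conv s t x := by
  induction k using Nat.strong_induction_on with
  | _ k ih =>
  intro x hx hk
  by_cases htight : ∃ S : Finset V, Odd S.card ∧ 1 < S.card ∧ S.card + 1 < Fintype.card V ∧
      ∑ e ∈ cut s t S, x e = 1
  · obtain ⟨S, h1, h2, h3, h4⟩ := htight
    exact tight_case hx IH h1 h2 h3 h4
  push Not at htight
  obtain ⟨M, hM, hMpos⟩ := exists_pm hx
  rcases isEmpty_or_nonempty V with hV | ⟨⟨v₀⟩⟩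
  · refine ⟨Unit, inferInstance, fun _ => 1, fun _ => ∅, fun _ => zero_le_one,
      fun _ _ v => isEmptyElim v, by simp, fun e => isEmptyElim (s e)⟩
  let J := {e // e ∈ M} ⊕ {S : Finset V // Odd S.card ∧ 1 < (M ∩ cut s t S).card}
  let φ : J → ℚ := Sum.elim (fun e => x e.1)
    (fun S => (∑ e ∈ cut s t S.1, x e - 1) / ((M ∩ cut s t S.1).card - 1))
  have hne : (univ : Finset J).Nonempty := by
    have h1 : (M ∩ cut s t {v₀}).Nonempty := by
      rw [← Finset.card_pos, hM v₀]
      exact one_pos
    obtain ⟨e, he⟩ := h1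
    exact ⟨Sum.inl ⟨e, (Finset.mem_inter.mp he).1⟩, Finset.mem_univ _⟩
  obtain ⟨j, -, hj⟩ := Finset.exists_min_image univ φ hne
  -- the cardinality of cut intersections
  have hnontriv : ∀ S : Finset V, Odd S.card → 1 < (M ∩ cut s t S).card →
      1 < ∑ e ∈ cut s t S, x e := by
    intro S hS hk1
    refine lt_of_le_of_ne (hx.odd S hS) (Ne.symm ?_)
    apply htight S hS
    · by_contra h
      have h1 : S.card = 1 := by
        have := hS.pos
        omega
      obtain ⟨v, rfl⟩ := Finset.card_eq_one.mp h1
      rw [hM v] at hk1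
      exact lt_irrefl _ hk1
    · by_contra h
      have hc : (univ \ S).card + S.card = Fintype.card V := by
        rw [Finset.card_sdiff_add_card_eq_card (Finset.subset_univ _), Finset.card_univ]
      have h1 : (univ \ S).card = 1 := by
        have h2 := even_card hx
        have h3 : (univ \ S).card ≤ 1 := by omega
        have h4 : (univ \ S).card ≠ 0 := by
          intro h0
          rw [← hc, h0, zero_add] at h2
          exact Nat.not_even_iff_odd.mpr hS h2
        omega
      obtain ⟨v, hv⟩ := Finset.card_eq_one.mp h1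
      rw [← cut_compl S, hv, hM v] at hk1
      exact lt_irrefl _ hk1
  have hφpos : ∀ i, 0 < φ i := by
    rintro (e | S)
    · exact hMpos _ e.2
    · have h1 := hnontriv _ S.2.1 S.2.2
      have h2 : (1 : ℚ) < (M ∩ cut s t S.1).card := by exact_mod_cast S.2.2
      exact div_pos (by linarith) (by linarith)
  set l := φ j with hl
  have hlpos : 0 < l := hφpos j
  have hle : ∀ e ∈ M, l ≤ x e := fun e he => hj (Sum.inl ⟨e, he⟩) (Finset.mem_univ _)
  have hlS : ∀ S : Finset V, Odd S.card → 1 < (M ∩ cut s t S).card →
      l * ((M ∩ cut s t S).card - 1) ≤ ∑ e ∈ cut s t S, x e - 1 := by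
    intro S h1 h2
    have h3 := hj (Sum.inr ⟨S, h1, h2⟩) (Finset.mem_univ _)
    have h4 : (1 : ℚ) < (M ∩ cut s t S).card := by exact_mod_cast h2
    rwa [← le_div_iff₀ (by linarith)]
  have hnl : ∀ e ∈ M, s e ≠ t e := by
    intro e he h
    exact (hMpos e he).ne' (hx.loop e h)
  have hmemcut : ∀ e, s e ≠ t e → e ∈ cut s t {s e} := by
    intro e he
    rw [mem_cut_singleton]
    simp [he.symm]
  rcases le_or_gt 1 l with h1l | h1l
  · -- `x` is the matching
    have hxe : x = fun e => if e ∈ M then 1 else 0 := by
      have hone : ∀ e ∈ M, x e = 1 := by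
        intro e he
        apply le_antisymm _ (h1l.trans (hle e he))
        rw [← hx.deg (s e)]
        exact Finset.single_le_sum (f := x) (fun f _ => hx.nonneg f) (hmemcut e (hnl e he))
      funext e
      split_ifs with he
      · exact hone e he
      · by_cases hloop : s e = t e
        · exact hx.loop e hloop
        · obtain ⟨f, hf⟩ := Finset.card_eq_one.mp (hM (s e))
          have hfm := Finset.mem_inter.mp (hf.symm ▸ Finset.mem_singleton_self f)
          have hfe : f ≠ e := by
            rintro rfl
            exact he hfm.1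
          have h2 : x f + x e ≤ ∑ g ∈ cut s t {s e}, x g := by
            rw [← Finset.sum_pair hfe]
            apply Finset.sum_le_sum_of_subset_of_nonneg
            · intro g hg
              rcases Finset.mem_insert.mp hg with rfl | hg
              · exact hfm.2
              · rw [Finset.mem_singleton.mp hg]
                exact hmemcut e hloop
            · intro g _ _
              exact hx.nonneg g
          rw [hx.deg, hone f hfm.1] at h2
          exact le_antisymm (by linarith) (hx.nonneg e)
    rw [hxe]
    exact conv_single hM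
  have h1l' : 0 < 1 - l := by linarith
  let y : E → ℚ := fun e => (x e - l * (if e ∈ M then 1 else 0)) / (1 - l)
  have hy : ∀ e, y e = (x e - l * (if e ∈ M then 1 else 0)) / (1 - l) := fun _ => rfl
  have hysum : ∀ C : Finset E, ∑ e ∈ C, y e = (∑ e ∈ C, x e - l * (M ∩ C).card) / (1 - l) := by
    intro C
    simp_rw [hy]
    rw [← Finset.sum_div, Finset.sum_sub_distrib, ← Finset.mul_sum]
    congr 3
    rw [← Finset.sum_filter, Finset.sum_const, nsmul_eq_mul, mul_one]
    congr 2
    ext e
    simp [and_comm]
  have hyQ : InQ s t y := by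
    constructor
    · intro e
      rw [hy]
      apply div_nonneg _ h1l'.le
      split_ifs with h
      · linarith [hle e h]
      · linarith [hx.nonneg e]
    · intro e he
      rw [hy, hx.loop e he, if_neg]
      · simp
      · intro h
        exact hnl e h he
    · intro v
      rw [hysum, hM v, hx.deg v]
      field_simp
      simp
    · intro S hS
      rw [hysum, le_div_iff₀ h1l']
      rcases le_or_gt (M ∩ cut s t S).card 1 with hk1 | hk1
      · have h2 := hx.odd S hS
        have h3 : ((M ∩ cut s t S).card : ℚ) ≤ 1 := by exact_mod_cast hk1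
        nlinarith
      · have h2 := hlS S hS hk1
        linarith
  have hconvy : Conv s t y := by
    rcases hjc : j with e | S
    · -- an edge disappears
      have hye : y e.1 = 0 := by
        rw [hy, if_pos e.2]
        have : l = x e.1 := by rw [hl, hjc]; rfl
        rw [this]
        simp
      refine ih _ ?_ y hyQ rfl
      rw [← hk]
      apply Finset.card_lt_card
      rw [Finset.ssubset_iff_of_subset]
      · refine ⟨e.1, ?_, ?_⟩
        · simp [(hMpos _ e.2).ne']
        · simp [hye]
      · intro f hf
        simp only [Finset.mem_filter, Finset.mem_univ, true_and] at hf ⊢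
        intro h0
        apply hf
        rw [hy, h0, if_neg]
        · simp
        · intro h
          exact (hMpos f h).ne' h0
    · -- a cut becomes tight
      have h4 : (1 : ℚ) < (M ∩ cut s t S.1).card := by exact_mod_cast S.2.2
      have h5 : l * ((M ∩ cut s t S.1).card - 1) = ∑ e ∈ cut s t S.1, x e - 1 := by
        have : l = (∑ e ∈ cut s t S.1, x e - 1) / ((M ∩ cut s t S.1).card - 1) := by
          rw [hl, hjc]; rfl
        rw [this, div_mul_cancel₀]
        linarith
      have h6 : 1 < S.1.card := by
        by_contra h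
        have h1 : S.1.card = 1 := by
          have := S.2.1.pos
          omega
        obtain ⟨v, hv⟩ := Finset.card_eq_one.mp h1
        have h7 := S.2.2
        rw [hv, hM v] at h7
        exact lt_irrefl _ h7
      have h8 : S.1.card + 1 < Fintype.card V := by
        by_contra h
        have hc : (univ \ S.1).card + S.1.card = Fintype.card V := by
          rw [Finset.card_sdiff_add_card_eq_card (Finset.subset_univ _), Finset.card_univ]
        have h1 : (univ \ S.1).card = 1 := by
          have h2 := even_card hx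
          have h3 : (univ \ S.1).card ≤ 1 := by omega
          have h4 : (univ \ S.1).card ≠ 0 := by
            intro h0
            rw [← hc, h0, zero_add] at h2
            exact Nat.not_even_iff_odd.mpr S.2.1 h2
          omega
        obtain ⟨v, hv⟩ := Finset.card_eq_one.mp h1
        have h7 := S.2.2
        rw [← cut_compl S.1, hv, hM v] at h7
        exact lt_irrefl _ h7
      refine tight_case hyQ IH S.2.1 h6 h8 ?_
      rw [hysum, div_eq_one_iff_eq h1l'.ne']
      linarith
  refine Conv.mix (l := l) (conv_single hM) hconvy hlpos.le h1l.le ?_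
  intro e
  rw [hy]
  field_simp
  ring

/-- **Edmonds' perfect matching polytope theorem** for multigraphs (with loops). -/
theorem edmonds (V : Type) [Fintype V] [DecidableEq V] (s t : E → V) (x : E → ℚ)
    (hx : InQ s t x) : Conv s t x := by
  obtain ⟨n, hn⟩ : ∃ n, Fintype.card V = n := ⟨_, rfl⟩
  induction n using Nat.strong_induction_on generalizing V x with
  | _ n ih =>
    refine edmonds_aux ?_ s t _ x hx rfl
    intro V' _ _ hV' s' t' x' hx'
    exact ih _ (hn ▸ hV') V' s' t' x' hx' rfl

end Pool.Agent.Lib.MP_95bb8c_al
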