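import Pool.Agent.Lib.MP_95bb8c_al.Edmonds

set_option autoImplicit false

namespace Pool.Agent.Lib.MP_95bb8c_al

open Finset

variable {V E : Type} [Fintype V] [DecidableEq V] [Fintype E] [DecidableEq E]

/-- The degree of `v` (loops are not counted). -/
def dg (s t : E → V) (v : V) : ℕ := (cut s t {v}).card

/-- The vertices of the gadget graph: the vertices of `T`, for each other vertex `v` one port for
each edge at `v`, and one further vertex if `v` has odd degree. -/
def GP (s t : E → V) (T : Finset V) (p : V × Option E) : Prop :=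
  match p.2 with
  | none => p.1 ∈ T ∨ Odd (dg s t p.1)
  | some e => p.1 ∉ T ∧ e ∈ cut s t {p.1}

abbrev GV (s t : E → V) (T : Finset V) : Type := {p : V × Option E // GP s t T p}

noncomputable instance (s t : E → V) (T : Finset V) : Fintype (GV s t T) := Fintype.ofFinite _

variable {s t : E → V} {T : Finset V}

/-- The endpoint at `v` of the edge `e` in the gadget graph. -/
def pt (s t : E → V) (T : Finset V) (v : V) (e : E) (h : e ∈ cut s t {v}) : GV s t T :=
  if hT : v ∈ T then ⟨(v, none), Or.inl hT⟩ else ⟨(v, some e), ⟨hT, h⟩⟩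

omit [Fintype V] [DecidableEq E] in
theorem pt_fst (v : V) (e : E) (h : e ∈ cut s t {v}) : (pt s t T v e h).1.1 = v := by
  unfold pt
  split_ifs <;> rfl

omit [Fintype V] [DecidableEq E] in
theorem pt_of_not_mem {v : V} (hT : v ∉ T) (e : E) (h : e ∈ cut s t {v}) :
    pt s t T v e h = ⟨(v, some e), ⟨hT, h⟩⟩ := dif_neg hT

omit [Fintype V] [DecidableEq E] in
theorem pt_of_mem {v : V} (hT : v ∈ T) (e : E) (h : e ∈ cut s t {v}) :
    pt s t T v e h = ⟨(v, none), Or.inl hT⟩ := dif_pos hT

omit [Fintype V] [DecidableEq E] in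
theorem mem_cut_s {e : E} (h : s e ≠ t e) : e ∈ cut s t {s e} := by
  rw [mem_cut_singleton]; simp [h.symm]

omit [Fintype V] [DecidableEq E] in
theorem mem_cut_t {e : E} (h : s e ≠ t e) : e ∈ cut s t {t e} := by
  rw [mem_cut_singleton]; simp [h]

/-- First endpoints in the gadget graph. -/
def gs (T : Finset V) (hl : ∀ e, s e ≠ t e) : E ⊕ (GV s t T × GV s t T) → GV s t T :=
  Sum.elim (fun e => pt s t T (s e) e (mem_cut_s (hl e))) Prod.fst

/-- Second endpoints in the gadget graph. -/
def gt (T : Finset V) (hl : ∀ e, s e ≠ t e) : E ⊕ (GV s t T × GV s t T) → GV s t T :=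
  Sum.elim (fun e => pt s t T (t e) e (mem_cut_t (hl e))) Prod.snd

/-- The weight of the pair `{p, q}` of vertices of the gadget graph. -/
noncomputable def gb (T : Finset V) (D : ℕ) (p q : GV s t T) : ℚ :=
  if p ≠ q ∧ p.1.1 = q.1.1 ∧ p.1.1 ∉ T then
    (if dg s t p.1.1 = 2 then 1 - 1 / (D : ℚ) else
      (1 / 3 - 1 / (2 * (D : ℚ))) + ((if p.1.2 = none then 1 / (2 * (D : ℚ)) else 0) +
        (if q.1.2 = none then 1 / (2 * (D : ℚ)) else 0)))
  else 0

omit [Fintype V] in
theorem gb_symm (D : ℕ) (p q : GV s t T) : gb T D p q = gb T D q p := by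
  unfold gb
  by_cases h : p ≠ q ∧ p.1.1 = q.1.1 ∧ p.1.1 ∉ T
  · have h' : q ≠ p ∧ q.1.1 = p.1.1 ∧ q.1.1 ∉ T := by
      refine ⟨h.1.symm, h.2.1.symm, ?_⟩
      rw [← h.2.1]
      exact h.2.2
    rw [if_pos h, if_pos h', ← h.2.1, add_comm (ite (p.1.2 = none) _ _)]
  · have h' : ¬ (q ≠ p ∧ q.1.1 = p.1.1 ∧ q.1.1 ∉ T) := by
      rintro ⟨h1, h2, h3⟩
      refine h ⟨h1.symm, h2.symm, ?_⟩
      rw [← h2]
      exact h3
    rw [if_neg h, if_neg h']

omit [Fintype V] in
theorem gb_nonneg {D : ℕ} (hD : 3 ≤ D) (p q : GV s t T) : 0 ≤ gb T D p q := by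
  have hD' : (3 : ℚ) ≤ D := by exact_mod_cast hD
  have h1 : 1 / (D : ℚ) ≤ 1 / 3 := one_div_le_one_div_of_le (by norm_num) hD'
  have h2 : 1 / (2 * (D : ℚ)) ≤ 1 / 6 := one_div_le_one_div_of_le (by norm_num) (by linarith)
  have h3 : 0 ≤ 1 / (2 * (D : ℚ)) := by positivity
  unfold gb
  split_ifs <;> linarith

/-- The weights of the gadget graph. -/
noncomputable def gx (T : Finset V) (D : ℕ) : E ⊕ (GV s t T × GV s t T) → ℚ :=
  Sum.elim (fun _ => 1 / (D : ℚ)) (fun p => gb T D p.1 p.2 / 2)

/-- The edges of the original graph crossing `A`. -/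
noncomputable def ext (T : Finset V) (hl : ∀ e, s e ≠ t e) (A : Finset (GV s t T)) : Finset E :=
  univ.filter fun e => ¬ (pt s t T (s e) e (mem_cut_s (hl e)) ∈ A ↔
    pt s t T (t e) e (mem_cut_t (hl e)) ∈ A)

theorem sum_cut (D : ℕ) (hl : ∀ e, s e ≠ t e) (A : Finset (GV s t T)) :
    ∑ e ∈ cut (gs T hl) (gt T hl) A, gx T D e =
      (ext T hl A).card / (D : ℚ) + ∑ p ∈ A, ∑ q ∈ univ \ A, gb T D p q := by
  have h1 : ∑ e ∈ cut (gs T hl) (gt T hl) A, gx T D e =
      ∑ e, if ¬ (gs T hl e ∈ A ↔ gt T hl e ∈ A) then gx T D e else 0 := by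
    rw [← Finset.sum_filter]
    rfl
  rw [h1, Fintype.sum_sum_type]
  congr 1
  · rw [← Finset.sum_filter]
    show ∑ e ∈ ext T hl A, 1 / (D : ℚ) = _
    rw [Finset.sum_const, nsmul_eq_mul]
    ring
  · have h2 : ∀ p q : GV s t T, (if ¬ (p ∈ A ↔ q ∈ A) then gb T D p q / 2 else 0) =
        (if p ∈ A then (if q ∉ A then gb T D p q / 2 else 0) else 0) +
        (if q ∈ A then (if p ∉ A then gb T D p q / 2 else 0) else 0) := by
      intro p q
      by_cases hp : p ∈ A <;> by_cases hq : q ∈ A <;> simp [hp, hq]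
    have h3 : (∑ p : GV s t T × GV s t T,
        if ¬ (gs T hl (Sum.inr p) ∈ A ↔ gt T hl (Sum.inr p) ∈ A) then gx T D (Sum.inr p) else 0) =
        ∑ p : GV s t T, ∑ q : GV s t T,
          (if ¬ (p ∈ A ↔ q ∈ A) then gb T D p q / 2 else 0) := by
      rw [Fintype.sum_prod_type]
      rfl
    rw [h3]
    simp_rw [h2, Finset.sum_add_distrib]
    have h4 : ∑ p : GV s t T, ∑ q : GV s t T,
        (if p ∈ A then (if q ∉ A then gb T D p q / 2 else 0) else 0) =
        ∑ p ∈ A, ∑ q ∈ univ \ A, gb T D p q / 2 := by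
      have : ∀ p : GV s t T, ∑ q : GV s t T,
          (if p ∈ A then (if q ∉ A then gb T D p q / 2 else 0) else 0) =
          if p ∈ A then ∑ q ∈ univ \ A, gb T D p q / 2 else 0 := by
        intro p
        by_cases hp : p ∈ A
        · simp only [hp, if_true]
          rw [← Finset.sum_filter]
          apply Finset.sum_congr _ (fun _ _ => rfl)
          ext q
          simp
        · simp [hp]
      simp_rw [this]
      rw [← Finset.sum_filter]
      apply Finset.sum_congr _ (fun _ _ => rfl)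
      ext q
      simp
    have h5 : ∑ p : GV s t T, ∑ q : GV s t T,
        (if q ∈ A then (if p ∉ A then gb T D p q / 2 else 0) else 0) =
        ∑ p ∈ A, ∑ q ∈ univ \ A, gb T D p q / 2 := by
      rw [Finset.sum_comm, ← h4]
      apply Finset.sum_congr rfl
      intro p _
      apply Finset.sum_congr rfl
      intro q _
      rw [gb_symm]
    rw [h4, h5, ← Finset.sum_add_distrib]
    apply Finset.sum_congr rfl
    intro p _
    rw [← Finset.sum_add_distrib]
    apply Finset.sum_congr rfl
    intro q _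
    ring

/-- The gadget of the vertex `v`. -/
noncomputable def fib (s t : E → V) (T : Finset V) (v : V) : Finset (GV s t T) :=
  univ.filter fun p => p.1.1 = v

omit [DecidableEq E] in
theorem mem_fib {v : V} {p : GV s t T} : p ∈ fib s t T v ↔ p.1.1 = v := by simp [fib]

theorem fib_card {v : V} (hv : v ∉ T) :
    (fib s t T v).card = dg s t v + (if Odd (dg s t v) then 1 else 0) := by
  have hinj : Set.InjOn (fun p : GV s t T => p.1.2) (fib s t T v : Set (GV s t T)) := by
    intro p hp q hq hpq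
    have h1 := mem_fib.mp (Finset.mem_coe.mp hp)
    have h2 := mem_fib.mp (Finset.mem_coe.mp hq)
    exact Subtype.ext (Prod.ext (h1.trans h2.symm) hpq)
  rw [← Finset.card_image_of_injOn hinj]
  have himg : (fib s t T v).image (fun p : GV s t T => p.1.2) =
      (cut s t {v}).map Function.Embedding.some ∪ (if Odd (dg s t v) then {none} else ∅) := by
    ext o
    rcases o with _ | e
    · simp only [Finset.mem_image, mem_fib, Finset.mem_union, Finset.mem_map,
        Function.Embedding.some_apply, reduceCtorEq, and_false, exists_false, false_or]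
      constructor
      · rintro ⟨⟨⟨w, o⟩, hp⟩, h1, h2⟩
        simp only at h1 h2
        subst h1
        subst h2
        rcases hp with hp | hp
        · exact absurd hp hv
        · rw [if_pos hp]
          simp
      · intro h
        by_cases h1 : Odd (dg s t v)
        · exact ⟨⟨(v, none), Or.inr h1⟩, rfl, rfl⟩
        · rw [if_neg h1] at h
          simp at h
    · simp only [Finset.mem_image, mem_fib, Finset.mem_union, Finset.mem_map,
        Function.Embedding.some_apply]
      constructor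
      · rintro ⟨⟨⟨w, o⟩, hp⟩, h1, h2⟩
        simp only at h1 h2
        subst h1
        subst h2
        exact Or.inl ⟨e, hp.2, rfl⟩
      · rintro (⟨f, hf, h⟩ | h)
        · exact ⟨⟨(v, some f), hv, hf⟩, rfl, h⟩
        · split_ifs at h <;> simp at h
  rw [himg, Finset.card_union_of_disjoint, Finset.card_map]
  · unfold dg
    split_ifs <;> simp
  · split_ifs <;> simp

/-- The contribution of the gadget of `v` to the cut of `A`. -/
noncomputable def gI (D : ℕ) (A : Finset (GV s t T)) (v : V) : ℚ :=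
  ∑ p ∈ fib s t T v ∩ A, ∑ q ∈ fib s t T v \ A, gb T D p q

theorem gI_two {D : ℕ} {A : Finset (GV s t T)} {v : V} (hv : v ∉ T) (h2 : dg s t v = 2) :
    gI D A v = (1 - 1 / (D : ℚ)) * ((fib s t T v ∩ A).card * (fib s t T v \ A).card) := by
  unfold gI
  have : ∀ p ∈ fib s t T v ∩ A, ∑ q ∈ fib s t T v \ A, gb T D p q =
      ∑ q ∈ fib s t T v \ A, (1 - 1 / (D : ℚ)) := by
    intro p hp
    apply Finset.sum_congr rfl
    intro q hq
    rw [Finset.mem_inter, mem_fib] at hp
    rw [Finset.mem_sdiff, mem_fib] at hq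
    unfold gb
    rw [if_pos, if_pos]
    · rw [hp.1, h2]
    · refine ⟨?_, hp.1.trans hq.1.symm, by rw [hp.1]; exact hv⟩
      rintro rfl
      exact hq.2 hp.2
  rw [Finset.sum_congr rfl this]
  simp only [Finset.sum_const, nsmul_eq_mul]
  ring

theorem gI_three {D : ℕ} {A : Finset (GV s t T)} {v : V} (hv : v ∉ T) (h3 : dg s t v ≠ 2) :
    gI D A v = (1 / 3 - 1 / (2 * (D : ℚ))) * ((fib s t T v ∩ A).card * (fib s t T v \ A).card) +
      (1 / (2 * (D : ℚ))) *
        ((((fib s t T v ∩ A).filter fun p => p.1.2 = none).card * (fib s t T v \ A).card) +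
          ((fib s t T v ∩ A).card * ((fib s t T v \ A).filter fun p => p.1.2 = none).card)) := by
  unfold gI
  have : ∀ p ∈ fib s t T v ∩ A, ∑ q ∈ fib s t T v \ A, gb T D p q =
      ∑ q ∈ fib s t T v \ A, ((1 / 3 - 1 / (2 * (D : ℚ))) +
        ((if p.1.2 = none then 1 / (2 * (D : ℚ)) else 0) +
        (if q.1.2 = none then 1 / (2 * (D : ℚ)) else 0))) := by
    intro p hp
    apply Finset.sum_congr rfl
    intro q hq
    rw [Finset.mem_inter, mem_fib] at hp
    rw [Finset.mem_sdiff, mem_fib] at hq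
    unfold gb
    rw [if_pos, if_neg]
    · rw [hp.1]; exact h3
    · refine ⟨?_, hp.1.trans hq.1.symm, by rw [hp.1]; exact hv⟩
      rintro rfl
      exact hq.2 hp.2
  rw [Finset.sum_congr rfl this]
  simp only [Finset.sum_add_distrib, Finset.sum_const, nsmul_eq_mul, ← Finset.sum_filter]
  simp only [← Finset.mul_sum, ← Finset.sum_filter, Finset.sum_const, nsmul_eq_mul]
  ring

end Pool.Agent.Lib.MP_95bb8c_al
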