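import Pool.Agent.Lib.MP_95bb8c_al.Gadget

set_option autoImplicit false

namespace Pool.Agent.Lib.MP_95bb8c_al

open Finset

variable {V E : Type} [Fintype V] [DecidableEq V] [Fintype E] [DecidableEq E]
variable {s t : E → V} {T : Finset V}

theorem gI_eq_zero_of_mem {D : ℕ} {A : Finset (GV s t T)} {v : V} (hv : v ∈ T) :
    gI D A v = 0 := by
  unfold gI
  apply Finset.sum_eq_zero
  intro p hp
  apply Finset.sum_eq_zero
  intro q _
  rw [Finset.mem_inter, mem_fib] at hp
  unfold gb
  rw [if_neg]
  rintro ⟨-, -, h⟩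
  rw [hp.1] at h
  exact h hv

theorem gI_eq_zero_left {D : ℕ} {A : Finset (GV s t T)} {v : V} (h : fib s t T v ∩ A = ∅) :
    gI D A v = 0 := by
  unfold gI
  rw [h, Finset.sum_empty]

theorem gI_eq_zero_right {D : ℕ} {A : Finset (GV s t T)} {v : V} (h : fib s t T v \ A = ∅) :
    gI D A v = 0 := by
  unfold gI
  rw [h]
  simp

theorem gI_nonneg {D : ℕ} (hD : 3 ≤ D) (A : Finset (GV s t T)) (v : V) : 0 ≤ gI D A v :=
  Finset.sum_nonneg fun p _ => Finset.sum_nonneg fun q _ => gb_nonneg hD p q

theorem sum_int (D : ℕ) (A : Finset (GV s t T)) :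
    ∑ p ∈ A, ∑ q ∈ univ \ A, gb T D p q = ∑ v, gI D A v := by
  rw [← Finset.sum_fiberwise A (fun p => p.1.1)]
  apply Finset.sum_congr rfl
  intro v _
  unfold gI
  have h1 : (A.filter fun p => p.1.1 = v) = fib s t T v ∩ A := by
    ext p
    rw [Finset.mem_filter, Finset.mem_inter, mem_fib, and_comm]
  rw [h1]
  apply Finset.sum_congr rfl
  intro p hp
  rw [Finset.mem_inter, mem_fib] at hp
  symm
  apply Finset.sum_subset
  · intro q hq
    rw [Finset.mem_sdiff] at hq ⊢
    exact ⟨Finset.mem_univ _, hq.2⟩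
  · intro q hq hq2
    rw [Finset.mem_sdiff] at hq hq2
    unfold gb
    rw [if_neg]
    rintro ⟨-, h, -⟩
    exact hq2 ⟨mem_fib.mpr (h.symm.trans hp.1), hq.2⟩

omit [Fintype V] [DecidableEq E] in
theorem exists_port {v : V} (hv : v ∉ T) {p : GV s t T} (hp : p.1.1 = v) (hn : p.1.2 ≠ none) :
    ∃ e, ∃ h : e ∈ cut s t {v}, p = pt s t T v e h := by
  obtain ⟨⟨w, o⟩, hGP⟩ := p
  simp only at hp hn
  subst hp
  rcases o with _ | e
  · exact absurd rfl hn
  · exact ⟨e, hGP.2, (pt_of_not_mem hv e hGP.2).symm⟩

omit [DecidableEq E] in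
theorem none_card {v : V} (h3 : dg s t v = 3) :
    ((fib s t T v).filter fun p => p.1.2 = none).card = 1 := by
  rw [Finset.card_eq_one]
  refine ⟨⟨(v, none), Or.inr ?_⟩, ?_⟩
  · rw [h3]; decide
  · ext p
    rw [Finset.mem_filter, mem_fib, Finset.mem_singleton]
    constructor
    · rintro ⟨h1, h2⟩
      exact Subtype.ext (Prod.ext h1 h2)
    · rintro rfl
      exact ⟨rfl, rfl⟩

theorem gI_cases {D : ℕ} (hD : 3 ≤ D) {A : Finset (GV s t T)} {v : V} (hv : v ∉ T)
    (hd : dg s t v = 2 ∨ dg s t v = 3) (hA : (fib s t T v ∩ A).Nonempty)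
    (hB : (fib s t T v \ A).Nonempty) :
    1 ≤ gI D A v ∨ (gI D A v = 1 - 1 / (D : ℚ) ∧ ∃ e, ∃ h : e ∈ cut s t {v},
      ((fib s t T v ∩ A = {pt s t T v e h} ∧ (fib s t T v ∩ A).card ≤ (fib s t T v \ A).card) ∨
       (fib s t T v \ A = {pt s t T v e h} ∧ (fib s t T v \ A).card < (fib s t T v ∩ A).card))) := by
  have hD' : (3 : ℚ) ≤ D := by exact_mod_cast hD
  have hD0 : (0 : ℚ) < D := by linarith
  have hcard : (fib s t T v ∩ A).card + (fib s t T v \ A).card = (fib s t T v).card :=
    Finset.card_inter_add_card_sdiff _ _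
  rw [fib_card hv] at hcard
  have ha := Finset.card_pos.mpr hA
  have hb := Finset.card_pos.mpr hB
  rcases hd with h2 | h3
  · right
    rw [h2] at hcard
    have hodd : ¬ Odd 2 := by decide
    rw [if_neg hodd] at hcard
    have ha1 : (fib s t T v ∩ A).card = 1 := by omega
    have hb1 : (fib s t T v \ A).card = 1 := by omega
    refine ⟨?_, ?_⟩
    · rw [gI_two hv h2, ha1, hb1]
      norm_num
    · obtain ⟨p, hp⟩ := Finset.card_eq_one.mp ha1
      have hp1 : p ∈ fib s t T v ∩ A := by rw [hp]; exact Finset.mem_singleton_self p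
      rw [Finset.mem_inter, mem_fib] at hp1
      obtain ⟨e, he, hpe⟩ := exists_port hv hp1.1 (by
        intro hn
        have := p.2
        unfold GP at this
        rw [hn] at this
        simp only at this
        rw [hp1.1, h2] at this
        rcases this with h | h
        · exact hv h
        · exact hodd h)
      refine ⟨e, he, Or.inl ⟨?_, by omega⟩⟩
      rw [hp, hpe]
  · rw [h3] at hcard
    have hodd : Odd 3 := by decide
    rw [if_pos hodd] at hcard
    have hne : dg s t v ≠ 2 := by omega
    have h0 : ((fib s t T v ∩ A).filter fun p => p.1.2 = none).card +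
        ((fib s t T v \ A).filter fun p => p.1.2 = none).card = 1 := by
      rw [← none_card h3, ← Finset.card_union_of_disjoint, ← Finset.filter_union,
        Finset.union_comm, Finset.sdiff_union_inter]
      exact Finset.disjoint_filter_filter (Finset.disjoint_left.mpr fun x hx hx2 =>
        (Finset.mem_sdiff.mp hx2).2 (Finset.mem_inter.mp hx).2)
    have hform := gI_three (D := D) (A := A) hv hne
    have hport : ∀ B : Finset (GV s t T), B ⊆ fib s t T v → B.card = 1 →
        (B.filter fun p => p.1.2 = none).card = 0 → ∃ e, ∃ h : e ∈ cut s t {v},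
          B = {pt s t T v e h} := by
      intro B hB1 hB2 hB3
      obtain ⟨p, hp⟩ := Finset.card_eq_one.mp hB2
      have hp1 : p ∈ B := by rw [hp]; exact Finset.mem_singleton_self p
      have hp2 : p.1.2 ≠ none := by
        intro hn
        rw [Finset.card_eq_zero, Finset.filter_eq_empty_iff] at hB3
        exact hB3 hp1 hn
      obtain ⟨e, he, hpe⟩ := exists_port hv (mem_fib.mp (hB1 hp1)) hp2
      exact ⟨e, he, by rw [hp, hpe]⟩
    have hx1 : (1 : ℚ) / (2 * D) = (1 / D) / 2 := by
      field_simp
    have hx2 : 1 / (D : ℚ) ≤ 1 / 3 := one_div_le_one_div_of_le (by norm_num) hD'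
    rw [hx1] at hform
    rcases (show (fib s t T v ∩ A).card = 1 ∧ (fib s t T v \ A).card = 3 ∨
      (fib s t T v ∩ A).card = 2 ∧ (fib s t T v \ A).card = 2 ∨
      (fib s t T v ∩ A).card = 3 ∧ (fib s t T v \ A).card = 1 by omega) with h | h | h
    · rcases (show ((fib s t T v ∩ A).filter fun p => p.1.2 = none).card = 1 ∧
        ((fib s t T v \ A).filter fun p => p.1.2 = none).card = 0 ∨
        ((fib s t T v ∩ A).filter fun p => p.1.2 = none).card = 0 ∧
        ((fib s t T v \ A).filter fun p => p.1.2 = none).card = 1 by omega) with h' | h'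
      · left
        rw [hform, h.1, h.2, h'.1, h'.2]
        push_cast
        linarith
      · right
        refine ⟨?_, ?_⟩
        · rw [hform, h.1, h.2, h'.1, h'.2]
          push_cast
          ring
        · obtain ⟨e, he, hpe⟩ := hport _ Finset.inter_subset_left h.1 h'.1
          exact ⟨e, he, Or.inl ⟨hpe, by omega⟩⟩
    · left
      rcases (show ((fib s t T v ∩ A).filter fun p => p.1.2 = none).card = 1 ∧
        ((fib s t T v \ A).filter fun p => p.1.2 = none).card = 0 ∨
        ((fib s t T v ∩ A).filter fun p => p.1.2 = none).card = 0 ∧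
        ((fib s t T v \ A).filter fun p => p.1.2 = none).card = 1 by omega) with h' | h'
      · rw [hform, h.1, h.2, h'.1, h'.2]
        push_cast
        linarith
      · rw [hform, h.1, h.2, h'.1, h'.2]
        push_cast
        linarith
    · rcases (show ((fib s t T v ∩ A).filter fun p => p.1.2 = none).card = 1 ∧
        ((fib s t T v \ A).filter fun p => p.1.2 = none).card = 0 ∨
        ((fib s t T v ∩ A).filter fun p => p.1.2 = none).card = 0 ∧
        ((fib s t T v \ A).filter fun p => p.1.2 = none).card = 1 by omega) with h' | h'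
      · right
        refine ⟨?_, ?_⟩
        · rw [hform, h.1, h.2, h'.1, h'.2]
          push_cast
          ring
        · obtain ⟨e, he, hpe⟩ := hport _ Finset.sdiff_subset h.2 h'.2
          exact ⟨e, he, Or.inr ⟨hpe, by omega⟩⟩
      · left
        rw [hform, h.1, h.2, h'.1, h'.2]
        push_cast
        linarith

end Pool.Agent.Lib.MP_95bb8c_al
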