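import Pool.Agent.Lib.MP_95bb8c_al.Gadget2

set_option autoImplicit false

namespace Pool.Agent.Lib.MP_95bb8c_al

open Finset

variable {V E : Type} [Fintype V] [DecidableEq V] [Fintype E] [DecidableEq E]
variable {s t : E → V} {T : Finset V}

/-- The hypotheses on the multigraph. -/
structure Good (s t : E → V) (T : Finset V) (D : ℕ) : Prop where
  hD : 3 ≤ D
  hT : ∀ v ∈ T, dg s t v = D
  hlow : ∀ v, v ∉ T → dg s t v ≤ 3
  hodd : ∀ S : Finset V, Odd (S ∩ T).card → D ≤ (cut s t S).card
  hbr : ∀ S : Finset V, (cut s t S).card ≠ 1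

/-- The vertices most of whose gadget is in `A`. -/
noncomputable def side (A : Finset (GV s t T)) : Finset V :=
  univ.filter fun v => (fib s t T v \ A).card < (fib s t T v ∩ A).card

theorem mem_side {A : Finset (GV s t T)} {v : V} :
    v ∈ side A ↔ (fib s t T v \ A).card < (fib s t T v ∩ A).card := by simp [side]

theorem agree_uncut {A : Finset (GV s t T)} {v : V} {e : E} (h : e ∈ cut s t {v})
    (hu : fib s t T v ∩ A = ∅ ∨ fib s t T v \ A = ∅) : pt s t T v e h ∈ A ↔ v ∈ side A := by
  have hp : pt s t T v e h ∈ fib s t T v := mem_fib.mpr (pt_fst v e h)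
  rw [mem_side]
  rcases hu with hu | hu
  · rw [hu]
    constructor
    · intro h1
      have : pt s t T v e h ∈ fib s t T v ∩ A := Finset.mem_inter.mpr ⟨hp, h1⟩
      rw [hu] at this
      simp at this
    · intro h1
      simp at h1
  · rw [hu]
    have h2 : pt s t T v e h ∈ A := by
      by_contra h1
      have : pt s t T v e h ∈ fib s t T v \ A := Finset.mem_sdiff.mpr ⟨hp, h1⟩
      rw [hu] at this
      simp at this
    refine ⟨fun _ => ?_, fun _ => h2⟩
    rw [Finset.card_empty]
    exact Finset.card_pos.mpr ⟨_, Finset.mem_inter.mpr ⟨hp, h2⟩⟩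

omit [Fintype V] [DecidableEq E] in
theorem pt_inj {v : V} (hv : v ∉ T) {e f : E} {h : e ∈ cut s t {v}} {h' : f ∈ cut s t {v}}
    (hp : pt s t T v e h = pt s t T v f h') : e = f := by
  rw [pt_of_not_mem hv, pt_of_not_mem hv] at hp
  have := congrArg (fun p : GV s t T => p.1.2) hp
  simpa using this

theorem agree_cut {A : Finset (GV s t T)} {v : V} (hv : v ∉ T) {e f : E} (h : e ∈ cut s t {v})
    (h' : f ∈ cut s t {v})
    (hc : (fib s t T v ∩ A = {pt s t T v e h} ∧ (fib s t T v ∩ A).card ≤ (fib s t T v \ A).card) ∨
       (fib s t T v \ A = {pt s t T v e h} ∧ (fib s t T v \ A).card < (fib s t T v ∩ A).card)) :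
    pt s t T v f h' ∈ A ↔ ¬ (v ∈ side A ↔ f = e) := by
  have hp : pt s t T v f h' ∈ fib s t T v := mem_fib.mpr (pt_fst v f h')
  rw [mem_side]
  rcases hc with ⟨hc1, hc2⟩ | ⟨hc1, hc2⟩
  · have h1 : pt s t T v f h' ∈ A ↔ f = e := by
      constructor
      · intro h1
        have : pt s t T v f h' ∈ fib s t T v ∩ A := Finset.mem_inter.mpr ⟨hp, h1⟩
        rw [hc1, Finset.mem_singleton] at this
        exact pt_inj hv this
      · rintro rfl
        have : pt s t T v f h' ∈ fib s t T v ∩ A := by rw [hc1]; exact Finset.mem_singleton_self _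
        exact (Finset.mem_inter.mp this).2
    have h2 : ¬ ((fib s t T v \ A).card < (fib s t T v ∩ A).card) := not_lt.mpr hc2
    rw [h1]
    tauto
  · have h1 : pt s t T v f h' ∈ A ↔ ¬ f = e := by
      constructor
      · rintro h1 rfl
        have : pt s t T v f h' ∈ fib s t T v \ A := by rw [hc1]; exact Finset.mem_singleton_self _
        exact (Finset.mem_sdiff.mp this).2 h1
      · intro h1
        by_contra h3
        have : pt s t T v f h' ∈ fib s t T v \ A := Finset.mem_sdiff.mpr ⟨hp, h3⟩
        rw [hc1, Finset.mem_singleton] at this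
        exact h1 (pt_inj hv this)
    rw [h1]
    tauto

omit [DecidableEq E] in
theorem fib_of_mem {v : V} (hv : v ∈ T) : fib s t T v = {⟨(v, none), Or.inl hv⟩} := by
  ext p
  rw [mem_fib, Finset.mem_singleton]
  constructor
  · intro h
    obtain ⟨⟨w, o⟩, hp⟩ := p
    simp only at h
    subst h
    rcases o with _ | e
    · rfl
    · exact absurd hv hp.1
  · rintro rfl
    rfl

theorem uncut_of_mem {v : V} (hv : v ∈ T) (A : Finset (GV s t T)) :
    fib s t T v ∩ A = ∅ ∨ fib s t T v \ A = ∅ := by
  rw [fib_of_mem hv]
  by_cases h : (⟨(v, none), Or.inl hv⟩ : GV s t T) ∈ A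
  · right
    rw [Finset.sdiff_eq_empty_iff_subset]
    exact Finset.singleton_subset_iff.mpr h
  · left
    exact Finset.singleton_inter_of_notMem h

omit [Fintype V] in
theorem mem_ext {hl : ∀ e, s e ≠ t e} {A : Finset (GV s t T)} {e : E} :
    e ∈ ext T hl A ↔ ¬ (pt s t T (s e) e (mem_cut_s (hl e)) ∈ A ↔
      pt s t T (t e) e (mem_cut_t (hl e)) ∈ A) := by simp [ext]

omit [Fintype V] [DecidableEq E] in
theorem end_of_mem {hl : ∀ e, s e ≠ t e} {v : V} {e : E} (h : e ∈ cut s t {v}) :
    s e = v ∧ t e ≠ v ∨ t e = v ∧ s e ≠ v := by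
  rw [mem_cut_singleton] at h
  have := hl e
  by_cases h1 : s e = v <;> by_cases h2 : t e = v <;> simp [h1, h2] at h ⊢

omit [Fintype V] [DecidableEq E] in
theorem dg_cases {D : ℕ} (hg : Good s t T D) {v : V} (hv : v ∉ T) :
    dg s t v = 0 ∨ dg s t v = 2 ∨ dg s t v = 3 := by
  have h1 := hg.hlow v hv
  have h2 := hg.hbr {v}
  unfold dg at *
  omega

theorem odd_cut {D : ℕ} (hl : ∀ e, s e ≠ t e) (hg : Good s t T D) (A : Finset (GV s t T))
    (hA : Odd A.card) : 1 ≤ ∑ e ∈ cut (gs T hl) (gt T hl) A, gx T D e := by
  have hD := hg.hD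
  have hD' : (3 : ℚ) ≤ D := by exact_mod_cast hD
  have hD0 : (0 : ℚ) < D := by linarith
  have hDinv : 1 / (D : ℚ) ≤ 1 / 3 := one_div_le_one_div_of_le (by norm_num) hD'
  rw [sum_cut, sum_int]
  have hext : (0 : ℚ) ≤ (ext T hl A).card / (D : ℚ) := by positivity
  have hnn : ∀ v, 0 ≤ gI D A v := gI_nonneg hD A
  by_cases h1 : ∃ v, 1 ≤ gI D A v
  · obtain ⟨v, hv⟩ := h1
    have := Finset.single_le_sum (f := fun v => gI D A v) (fun v _ => hnn v) (Finset.mem_univ v)
    linarith
  push Not at h1
  have hcut : ∀ v, v ∉ T → (fib s t T v ∩ A).Nonempty → (fib s t T v \ A).Nonempty →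
      (gI D A v = 1 - 1 / (D : ℚ) ∧ ∃ e, ∃ h : e ∈ cut s t {v},
      ((fib s t T v ∩ A = {pt s t T v e h} ∧ (fib s t T v ∩ A).card ≤ (fib s t T v \ A).card) ∨
       (fib s t T v \ A = {pt s t T v e h} ∧
          (fib s t T v \ A).card < (fib s t T v ∩ A).card))) := by
    intro v hv ha hb
    have hd : dg s t v = 2 ∨ dg s t v = 3 := by
      rcases dg_cases hg hv with h | h
      · exfalso
        have h2 := fib_card (s := s) (t := t) hv
        have h3 : ¬ Odd 0 := by decide
        rw [h, if_neg h3, Finset.card_eq_zero] at h2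
        rw [h2] at ha
        simp at ha
      · exact h
    rcases gI_cases hD hv hd ha hb with h | h
    · exact absurd h (not_le.mpr (h1 v))
    · exact h
  by_cases h2 : ∃ v, v ∉ T ∧ (fib s t T v ∩ A).Nonempty ∧ (fib s t T v \ A).Nonempty
  · obtain ⟨v, hv, ha, hb⟩ := h2
    obtain ⟨hgI, e, he, hc⟩ := hcut v hv ha hb
    by_cases h3 : ∃ u, u ≠ v ∧ u ∉ T ∧ (fib s t T u ∩ A).Nonempty ∧ (fib s t T u \ A).Nonempty
    · obtain ⟨u, huv, hu, ha', hb'⟩ := h3
      obtain ⟨hgI', -⟩ := hcut u hu ha' hb'
      have h4 : gI D A v + gI D A u ≤ ∑ v, gI D A v := by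
        rw [← Finset.sum_pair huv.symm]
        exact Finset.sum_le_sum_of_subset_of_nonneg (Finset.subset_univ _) (fun v _ _ => hnn v)
      rw [hgI, hgI'] at h4
      linarith
    · have h4 : gI D A v ≤ ∑ v, gI D A v :=
        Finset.single_le_sum (f := fun v => gI D A v) (fun v _ => hnn v) (Finset.mem_univ v)
      have hne : (ext T hl A).Nonempty := by
        rw [Finset.nonempty_iff_ne_empty]
        intro hemp
        have hun : ∀ u, u ≠ v → fib s t T u ∩ A = ∅ ∨ fib s t T u \ A = ∅ := by
          intro u hu
          by_cases huT : u ∈ T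
          · exact uncut_of_mem huT A
          · by_contra h5
            push Not at h5
            exact h3 ⟨u, hu, huT, h5.1, h5.2⟩
        have hagree : ∀ u f (h : f ∈ cut s t {u}), u ≠ v ∨ f ≠ e →
            (pt s t T u f h ∈ A ↔ u ∈ side A) := by
          intro u f h huf
          by_cases huv : u = v
          · subst huv
            rw [agree_cut hv he h hc]
            have : ¬ f = e := by
              rcases huf with h' | h'
              · exact absurd rfl h'
              · exact h'
            tauto
          · exact agree_uncut h (hun u huv)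
        have hflip : ∀ h, pt s t T v e h ∈ A ↔ ¬ v ∈ side A := by
          intro h
          rw [agree_cut hv he h hc]
          tauto
        refine hg.hbr (side A) ?_
        rw [Finset.card_eq_one]
        refine ⟨e, ?_⟩
        ext f
        rw [Finset.mem_singleton, mem_cut]
        have hf : ¬ (f ∈ ext T hl A) := by rw [hemp]; simp
        rw [mem_ext, not_not] at hf
        by_cases hfe : f = e
        · subst hfe
          refine ⟨fun _ => rfl, fun _ => ?_⟩
          rcases end_of_mem (hl := hl) he with ⟨h5, h6⟩ | ⟨h5, h6⟩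
          · have h7 := hagree (t f) f (mem_cut_t (hl f)) (Or.inl h6)
            have h8 : pt s t T (s f) f (mem_cut_s (hl f)) ∈ A ↔ ¬ s f ∈ side A := by
              have : ∀ x (hx : f ∈ cut s t {x}), x = v → (pt s t T x f hx ∈ A ↔ ¬ x ∈ side A) := by
                rintro x hx rfl
                exact hflip hx
              exact this _ _ h5
            tauto
          · have h7 := hagree (s f) f (mem_cut_s (hl f)) (Or.inl h6)
            have h8 : pt s t T (t f) f (mem_cut_t (hl f)) ∈ A ↔ ¬ t f ∈ side A := by
              have : ∀ x (hx : f ∈ cut s t {x}), x = v → (pt s t T x f hx ∈ A ↔ ¬ x ∈ side A) := by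
                rintro x hx rfl
                exact hflip hx
              exact this _ _ h5
            tauto
        · have h7 := hagree (s f) f (mem_cut_s (hl f)) (Or.inr hfe)
          have h8 := hagree (t f) f (mem_cut_t (hl f)) (Or.inr hfe)
          constructor
          · intro h9
            exact absurd (h7.symm.trans (hf.trans h8)) h9
          · intro h9
            exact absurd h9 hfe
      have h5 : (1 : ℚ) / D ≤ (ext T hl A).card / (D : ℚ) := by
        apply div_le_div_of_nonneg_right _ hD0.le
        exact_mod_cast Finset.card_pos.mpr hne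
      rw [hgI] at h4
      linarith
  · have hun : ∀ u, fib s t T u ∩ A = ∅ ∨ fib s t T u \ A = ∅ := by
      intro u
      by_cases huT : u ∈ T
      · exact uncut_of_mem huT A
      · by_contra h5
        push Not at h5
        exact h2 ⟨u, huT, h5.1, h5.2⟩
    have hex : ext T hl A = cut s t (side A) := by
      ext f
      rw [mem_ext, mem_cut, agree_uncut _ (hun _), agree_uncut _ (hun _)]
    have hpar : Odd (side A ∩ T).card := by
      have h3 : A.card = ∑ v, (fib s t T v ∩ A).card := by
        rw [Finset.card_eq_sum_card_fiberwise (f := fun p => p.1.1) (t := univ)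
          (fun _ _ => Finset.mem_coe.mpr (Finset.mem_univ _))]
        apply Finset.sum_congr rfl
        intro v _
        congr 1
        ext p
        rw [Finset.mem_filter, Finset.mem_inter, mem_fib, and_comm]
      have h4 : (side A ∩ T).card = ∑ v, if v ∈ side A ∩ T then 1 else 0 := by
        rw [Finset.sum_boole, Finset.filter_mem_eq_inter, Finset.univ_inter]
        rfl
      have h5 : Even (A.card + (side A ∩ T).card) := by
        rw [h3, h4, ← Finset.sum_add_distrib]
        apply Finset.even_sum
        intro v _
        by_cases hv : v ∈ T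
        · by_cases hs : v ∈ side A
          · rw [if_pos (Finset.mem_inter.mpr ⟨hs, hv⟩)]
            have h6 : (fib s t T v ∩ A).card = 1 := by
              rw [mem_side] at hs
              have h7 : (fib s t T v ∩ A).card ≤ (fib s t T v).card :=
                Finset.card_le_card Finset.inter_subset_left
              rw [fib_of_mem hv, Finset.card_singleton] at h7
              rw [fib_of_mem hv] at hs ⊢
              omega
            rw [h6]
            decide
          · rw [if_neg (fun h => hs (Finset.mem_inter.mp h).1)]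
            have h6 : (fib s t T v ∩ A).card = 0 := by
              rw [mem_side] at hs
              rcases hun v with h | h
              · rw [h]; rfl
              · rw [h] at hs
                simp only [Finset.card_empty] at hs
                omega
            rw [h6]
            decide
        · rw [if_neg (fun h => hv (Finset.mem_inter.mp h).2)]
          rcases hun v with h | h
          · rw [h]; simp
          · have h7 : (fib s t T v ∩ A).card = (fib s t T v).card := by
              have := Finset.card_inter_add_card_sdiff (fib s t T v) A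
              rw [h] at this
              simpa using this
            rw [h7, fib_card hv, add_zero]
            by_cases ho : Odd (dg s t v)
            · rw [if_pos ho]
              exact Odd.add_odd ho odd_one
            · rw [if_neg ho, add_zero]
              exact Nat.not_odd_iff_even.mp ho
      rw [Nat.even_add] at h5
      rw [← Nat.not_even_iff_odd] at hA ⊢
      tauto
    have h3 := hg.hodd _ hpar
    rw [hex]
    have h4 : (1 : ℚ) ≤ (cut s t (side A)).card / (D : ℚ) := by
      rw [le_div_iff₀ hD0, one_mul]
      exact_mod_cast h3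
    have h5 : 0 ≤ ∑ v, gI D A v := Finset.sum_nonneg (fun v _ => hnn v)
    linarith

end Pool.Agent.Lib.MP_95bb8c_al
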