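import Pool.Agent.Lib.MP_95bb8c_al.Gadget3

set_option autoImplicit false

namespace Pool.Agent.Lib.MP_95bb8c_al

open Finset

variable {V E : Type} [Fintype V] [DecidableEq V] [Fintype E] [DecidableEq E]
variable {s t : E → V} {T : Finset V}

theorem mem_cut_inl {hl : ∀ e, s e ≠ t e} {A : Finset (GV s t T)} {e : E} :
    Sum.inl e ∈ cut (gs T hl) (gt T hl) A ↔ e ∈ ext T hl A := by
  rw [mem_cut, mem_ext]
  rfl

omit [Fintype V] [DecidableEq E] in
theorem pt_eq_iff_of_mem {v u : V} (hv : v ∈ T) {e : E} (h : e ∈ cut s t {u}) :
    pt s t T u e h = ⟨(v, none), Or.inl hv⟩ ↔ u = v := by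
  constructor
  · intro h1
    have := congrArg (fun p : GV s t T => p.1.1) h1
    simp only at this
    rwa [pt_fst] at this
  · rintro rfl
    exact pt_of_mem hv e h

omit [Fintype V] in
theorem ext_of_mem {hl : ∀ e, s e ≠ t e} {v : V} (hv : v ∈ T) :
    ext T hl {(⟨(v, none), Or.inl hv⟩ : GV s t T)} = cut s t {v} := by
  ext e
  rw [mem_ext, mem_cut_singleton, Finset.mem_singleton, Finset.mem_singleton,
    pt_eq_iff_of_mem hv, pt_eq_iff_of_mem hv]

theorem sum_gI_singleton {D : ℕ} (p : GV s t T) : ∑ v, gI D {p} v = gI D {p} p.1.1 := by
  apply Finset.sum_eq_single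
  · intro v _ hv
    apply gI_eq_zero_left
    rw [Finset.inter_singleton_of_notMem]
    rw [mem_fib]
    exact hv.symm
  · intro h
    exact absurd (Finset.mem_univ _) h

theorem deg_one {D : ℕ} (hl : ∀ e, s e ≠ t e) (hg : Good s t T D) (p : GV s t T) :
    ∑ e ∈ cut (gs T hl) (gt T hl) {p}, gx T D e = 1 := by
  have hD := hg.hD
  have hD' : (3 : ℚ) ≤ D := by exact_mod_cast hD
  have hD0 : (0 : ℚ) < D := by linarith
  rw [sum_cut, sum_int, sum_gI_singleton]
  by_cases hv : p.1.1 ∈ T
  · rw [gI_eq_zero_of_mem hv]
    have hp : p = ⟨(p.1.1, none), Or.inl hv⟩ := by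
      have := mem_fib.mpr (rfl : p.1.1 = p.1.1)
      rw [fib_of_mem hv, Finset.mem_singleton] at this
      exact this
    have h1 : (ext T hl {p}).card = D := by
      rw [hp, ext_of_mem hv]
      exact hg.hT _ hv
    rw [h1, add_zero, div_self hD0.ne']
  · have hpf : p ∈ fib s t T p.1.1 := mem_fib.mpr rfl
    have hi : fib s t T p.1.1 ∩ {p} = {p} := Finset.inter_singleton_of_mem hpf
    have hcard := Finset.card_inter_add_card_sdiff (fib s t T p.1.1) {p}
    rw [hi, Finset.card_singleton, fib_card hv] at hcard
    rcases hp : p.1.2 with _ | e
    · have hodd : Odd (dg s t p.1.1) := by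
        have := p.2
        unfold GP at this
        rw [hp] at this
        rcases this with h | h
        · exact absurd h hv
        · exact h
      have h3 : dg s t p.1.1 = 3 := by
        rcases dg_cases hg hv with h | h | h
        · rw [h] at hodd; exact absurd hodd (by decide)
        · rw [h] at hodd; exact absurd hodd (by decide)
        · exact h
      have hne : dg s t p.1.1 ≠ 2 := by omega
      rw [if_pos hodd, h3] at hcard
      have hc3 : (fib s t T p.1.1 \ {p}).card = 3 := by omega
      have hn1 : (({p} : Finset (GV s t T)).filter fun p => p.1.2 = none).card = 1 := by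
        rw [Finset.filter_singleton, if_pos hp, Finset.card_singleton]
      have hn2 : ((fib s t T p.1.1 \ {p}).filter fun p => p.1.2 = none).card = 0 := by
        have h4 := none_card (T := T) h3
        rw [Finset.card_eq_one] at h4
        obtain ⟨q, hq⟩ := h4
        have hpq : p = q := by
          have : p ∈ (fib s t T p.1.1).filter fun p => p.1.2 = none :=
            Finset.mem_filter.mpr ⟨hpf, hp⟩
          rw [hq] at this
          exact Finset.mem_singleton.mp this
        rw [Finset.card_eq_zero, Finset.filter_eq_empty_iff]
        intro x hx hx2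
        rw [Finset.mem_sdiff, Finset.mem_singleton] at hx
        have : x ∈ (fib s t T p.1.1).filter fun p => p.1.2 = none :=
          Finset.mem_filter.mpr ⟨hx.1, hx2⟩
        rw [hq, Finset.mem_singleton, ← hpq] at this
        exact hx.2 this
      have hext : ext T hl {p} = ∅ := by
        rw [Finset.eq_empty_iff_forall_notMem]
        intro f hf
        rw [mem_ext, Finset.mem_singleton, Finset.mem_singleton] at hf
        have h5 : ∀ u (h : f ∈ cut s t {u}), pt s t T u f h ≠ p := by
          intro u h h6
          have h7 : u = p.1.1 := by rw [← h6, pt_fst]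
          subst h7
          rw [pt_of_not_mem hv] at h6
          have := congrArg (fun p : GV s t T => p.1.2) h6
          simp [hp] at this
        exact hf (iff_of_false (h5 _ _) (h5 _ _))
      rw [gI_three hv hne, hext, hi, hc3, hn1, hn2, Finset.card_empty, Finset.card_singleton]
      push_cast
      field_simp
      ring
    · have he : e ∈ cut s t {p.1.1} := by
        have := p.2
        unfold GP at this
        rw [hp] at this
        exact this.2
      have hpe : p = pt s t T p.1.1 e he := by
        rw [pt_of_not_mem hv]
        exact Subtype.ext (Prod.ext rfl hp)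
      have hext : ext T hl {p} = {e} := by
        ext f
        rw [mem_ext, Finset.mem_singleton, Finset.mem_singleton, Finset.mem_singleton]
        have h5 : ∀ u (h : f ∈ cut s t {u}), pt s t T u f h = p ↔ (u = p.1.1 ∧ f = e) := by
          intro u h
          constructor
          · intro h6
            have h7 : u = p.1.1 := by rw [← h6, pt_fst]
            subst h7
            refine ⟨rfl, ?_⟩
            have h8 := h6.trans hpe
            exact pt_inj hv h8
          · rintro ⟨rfl, rfl⟩
            exact hpe.symm
        rw [h5, h5]
        constructor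
        · intro h6
          by_contra h7
          exact h6 (iff_of_false (fun h => h7 h.2) (fun h => h7 h.2))
        · rintro rfl
          rcases end_of_mem (hl := hl) he with ⟨h8, h9⟩ | ⟨h8, h9⟩
          · intro h6
            exact h9 (h6.mp ⟨h8, rfl⟩).1
          · intro h6
            exact h9 (h6.mpr ⟨h8, rfl⟩).1
      have hdg : dg s t p.1.1 ≠ 0 := by
        unfold dg
        exact (Finset.card_pos.mpr ⟨e, he⟩).ne'
      rcases dg_cases hg hv with h | h2 | h3
      · exact absurd h hdg
      · have hodd : ¬ Odd 2 := by decide
        rw [h2, if_neg hodd] at hcard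
        have hc : (fib s t T p.1.1 \ {p}).card = 1 := by omega
        rw [gI_two hv h2, hext, hi, hc, Finset.card_singleton, Finset.card_singleton]
        push_cast
        field_simp
        ring
      · have hodd : Odd 3 := by decide
        have hne : dg s t p.1.1 ≠ 2 := by omega
        rw [h3, if_pos hodd] at hcard
        have hc3 : (fib s t T p.1.1 \ {p}).card = 3 := by omega
        have hn1 : (({p} : Finset (GV s t T)).filter fun p => p.1.2 = none).card = 0 := by
          rw [Finset.filter_singleton, if_neg (by rw [hp]; simp), Finset.card_empty]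
        have hn2 : ((fib s t T p.1.1 \ {p}).filter fun p => p.1.2 = none).card = 1 := by
          rw [← none_card (T := T) h3]
          congr 1
          ext x
          rw [Finset.mem_filter, Finset.mem_filter, Finset.mem_sdiff, Finset.mem_singleton]
          constructor
          · rintro ⟨⟨h4, -⟩, h5⟩
            exact ⟨h4, h5⟩
          · rintro ⟨h4, h5⟩
            refine ⟨⟨h4, ?_⟩, h5⟩
            rintro rfl
            rw [hp] at h5
            simp at h5
        rw [gI_three hv hne, hext, hi, hc3, hn1, hn2, Finset.card_singleton,
          Finset.card_singleton]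
        push_cast
        field_simp
        ring

theorem inQ {D : ℕ} (hl : ∀ e, s e ≠ t e) (hg : Good s t T D) :
    InQ (gs T hl) (gt T hl) (gx T D) where
  nonneg := by
    rintro (e | ⟨p, q⟩)
    · show (0 : ℚ) ≤ 1 / (D : ℚ)
      positivity
    · show 0 ≤ gb T D p q / 2
      have := gb_nonneg hg.hD p q
      linarith
  loop := by
    rintro (e | ⟨p, q⟩) h
    · exfalso
      have := congrArg (fun p : GV s t T => p.1.1) h
      simp only [gs, gt, Sum.elim_inl, pt_fst] at this
      exact hl e this
    · have h1 : p = q := h
      subst h1
      show gb T D p p / 2 = 0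
      unfold gb
      rw [if_neg (fun h => h.1 rfl), zero_div]
  deg := deg_one hl hg
  odd := odd_cut hl hg

theorem exists_joins {D : ℕ} (hl : ∀ e, s e ≠ t e) (hg : Good s t T D) :
    ∃ (ι : Type) (_ : Fintype ι) (w : ι → ℚ) (F : ι → Finset E), (∀ i, 0 ≤ w i) ∧
      (∀ i, w i ≠ 0 → (∀ v ∈ T, (F i ∩ cut s t {v}).card = 1) ∧
        ∀ v, v ∉ T → Even (F i ∩ cut s t {v}).card) ∧
      ∑ i, w i = 1 ∧ ∀ e, ∑ i, (if e ∈ F i then w i else 0) = 1 / (D : ℚ) := by
  classical
  obtain ⟨ι, hι, w, M, h1, h2, h3, h4⟩ := edmonds _ _ _ _ (inQ hl hg)
  refine ⟨ι, hι, w, fun i => univ.filter fun e => Sum.inl e ∈ M i, h1, ?_, h3, ?_⟩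
  · intro i hi
    have hpm := h2 i hi
    have hsupp : ∀ p q, Sum.inr (p, q) ∈ M i → p ≠ q ∧ p.1.1 = q.1.1 ∧ p.1.1 ∉ T := by
      intro p q hpq
      by_contra hcon
      refine mem_supp h1 h4 ?_ hi hpq
      show gb T D p q / 2 = 0
      unfold gb
      rw [if_neg hcon, zero_div]
    refine ⟨?_, ?_⟩
    · intro v hv
      rw [← hpm ⟨(v, none), Or.inl hv⟩]
      rw [← Finset.card_map (Function.Embedding.inl (α := E) (β := GV s t T × GV s t T))]
      congr 1
      ext x
      rw [Finset.mem_map, Finset.mem_inter]
      constructor
      · rintro ⟨e, he, rfl⟩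
        rw [Finset.mem_inter, Finset.mem_filter] at he
        refine ⟨he.1.2, ?_⟩
        show Sum.inl e ∈ _
        rw [mem_cut_inl, ext_of_mem hv]
        exact he.2
      · rintro ⟨hx1, hx2⟩
        rcases x with e | ⟨p, q⟩
        · rw [mem_cut_inl, ext_of_mem hv] at hx2
          exact ⟨e, Finset.mem_inter.mpr ⟨Finset.mem_filter.mpr ⟨Finset.mem_univ _, hx1⟩, hx2⟩, rfl⟩
        · exfalso
          obtain ⟨h5, h6, h7⟩ := hsupp p q hx1
          rw [mem_cut_singleton] at hx2
          have h8 : p = ⟨(v, none), Or.inl hv⟩ ∨ q = ⟨(v, none), Or.inl hv⟩ := by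
            by_contra h9
            push Not at h9
            exact hx2 (iff_of_false h9.1 h9.2)
          rcases h8 with h8 | h8
          · rw [h8] at h7
            exact h7 hv
          · rw [h6, h8] at h7
            exact h7 hv
    · intro v hv
      set Φ := fib s t T v with hΦ
      have hΦe : Even Φ.card := by
        rw [hΦ, fib_card hv]
        by_cases ho : Odd (dg s t v)
        · rw [if_pos ho]
          exact Odd.add_odd ho odd_one
        · rw [if_neg ho, add_zero]
          exact Nat.not_odd_iff_even.mp ho
      have hc1 : Φ.card = ∑ x ∈ M i,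
          (Φ.filter fun p => x ∈ cut (gs T hl) (gt T hl) {p}).card := by
        have : Φ.card = ∑ p ∈ Φ, (M i ∩ cut (gs T hl) (gt T hl) {p}).card := by
          rw [Finset.sum_congr rfl (fun p _ => hpm p)]
          simp
        rw [this]
        simp_rw [Finset.card_eq_sum_ones, Finset.sum_filter]
        rw [Finset.sum_comm]
        apply Finset.sum_congr rfl
        intro p _
        rw [← Finset.sum_filter, Finset.filter_mem_eq_inter]
      have hc2 : ((univ.filter fun e => Sum.inl e ∈ M i) ∩ cut s t {v}).card =
          ∑ x ∈ M i, (if ∃ e ∈ cut s t {v}, x = Sum.inl e then 1 else 0) := by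
        rw [Finset.sum_boole]
        simp only [Nat.cast_id]
        rw [← Finset.card_map (Function.Embedding.inl (α := E) (β := GV s t T × GV s t T))]
        congr 1
        ext x
        rw [Finset.mem_map, Finset.mem_filter]
        constructor
        · rintro ⟨e, he, rfl⟩
          rw [Finset.mem_inter, Finset.mem_filter] at he
          exact ⟨he.1.2, e, he.2, rfl⟩
        · rintro ⟨hx1, e, he, rfl⟩
          exact ⟨e, Finset.mem_inter.mpr ⟨Finset.mem_filter.mpr ⟨Finset.mem_univ _, hx1⟩, he⟩, rfl⟩
      have hsum : Even (Φ.card +
          ((univ.filter fun e => Sum.inl e ∈ M i) ∩ cut s t {v}).card) := by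
        rw [hc1, hc2, ← Finset.sum_add_distrib]
        apply Finset.even_sum
        rintro (e | ⟨p, q⟩) hx
        · have key : ∀ a b : GV s t T, a.1.1 = v → b.1.1 ≠ v →
              (Φ.filter fun p => ¬ (a = p ↔ b = p)) = {a} := by
            intro a b ha hb
            ext p
            rw [Finset.mem_filter, Finset.mem_singleton, hΦ, mem_fib]
            constructor
            · rintro ⟨h5, h6⟩
              by_contra h7
              apply h6
              refine iff_of_false (fun h => h7 h.symm) ?_
              rintro rfl
              exact hb h5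
            · rintro rfl
              refine ⟨ha, fun h => ?_⟩
              have := h.mp rfl
              rw [this] at hb
              exact hb ha
          have hmem : ∀ p, Sum.inl e ∈ cut (gs T hl) (gt T hl) {p} ↔
              ¬ (pt s t T (s e) e (mem_cut_s (hl e)) = p ↔
                pt s t T (t e) e (mem_cut_t (hl e)) = p) := by
            intro p
            rw [mem_cut_inl, mem_ext, Finset.mem_singleton, Finset.mem_singleton]
          simp_rw [hmem]
          by_cases he : e ∈ cut s t {v}
          · rw [if_pos ⟨e, he, rfl⟩]
            rcases end_of_mem (hl := hl) he with ⟨h8, h9⟩ | ⟨h8, h9⟩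
            · rw [key _ _ (by rw [pt_fst]; exact h8) (by rw [pt_fst]; exact h9),
                Finset.card_singleton]
              decide
            · have h10 := key (pt s t T (t e) e (mem_cut_t (hl e)))
                (pt s t T (s e) e (mem_cut_s (hl e))) (by rw [pt_fst]; exact h8)
                (by rw [pt_fst]; exact h9)
              have h11 : (Φ.filter fun p => ¬ (pt s t T (s e) e (mem_cut_s (hl e)) = p ↔
                pt s t T (t e) e (mem_cut_t (hl e)) = p)) =
                (Φ.filter fun p => ¬ (pt s t T (t e) e (mem_cut_t (hl e)) = p ↔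
                pt s t T (s e) e (mem_cut_s (hl e)) = p)) := by
                apply Finset.filter_congr
                intro p _
                exact not_congr iff_comm
              rw [h11, h10, Finset.card_singleton]
              decide
          · rw [if_neg (by
              rintro ⟨f, hf, hef⟩
              rw [Sum.inl.injEq] at hef
              subst hef
              exact he hf)]
            have h5 : (Φ.filter fun p => ¬ (pt s t T (s e) e (mem_cut_s (hl e)) = p ↔
                pt s t T (t e) e (mem_cut_t (hl e)) = p)) = ∅ := by
              rw [Finset.filter_eq_empty_iff]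
              intro p hp hp2
              rw [hΦ, mem_fib] at hp
              rw [mem_cut_singleton, not_not] at he
              apply hp2
              have h6 : ¬ (s e = v ∧ t e = v) := fun h => hl e (h.1.trans h.2.symm)
              refine iff_of_false ?_ ?_
              · intro h7
                have : s e = v := by rw [← hp, ← h7, pt_fst]
                exact h6 ⟨this, he.mp this⟩
              · intro h7
                have : t e = v := by rw [← hp, ← h7, pt_fst]
                exact h6 ⟨he.mpr this, this⟩
            rw [h5]
            simp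
        · obtain ⟨h5, h6, h7⟩ := hsupp p q hx
          rw [if_neg (by
            rintro ⟨f, hf, hef⟩
            exact absurd hef (by simp))]
          have hmem : ∀ r, Sum.inr (p, q) ∈ cut (gs T hl) (gt T hl) {r} ↔
              ¬ (p = r ↔ q = r) := by
            intro r
            rw [mem_cut_singleton]
            rfl
          simp_rw [hmem]
          by_cases hpv : p.1.1 = v
          · have h8 : (Φ.filter fun r => ¬ (p = r ↔ q = r)) = {p, q} := by
              ext r
              rw [Finset.mem_filter, Finset.mem_insert, Finset.mem_singleton, hΦ, mem_fib]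
              constructor
              · rintro ⟨-, h9⟩
                by_contra h10
                push Not at h10
                exact h9 (iff_of_false h10.1.symm h10.2.symm)
              · rintro (rfl | rfl)
                · exact ⟨hpv, fun h => h5 (h.mp rfl).symm⟩
                · exact ⟨h6 ▸ hpv, fun h => h5 (h.mpr rfl)⟩
            rw [h8, Finset.card_pair h5]
            decide
          · have h8 : (Φ.filter fun r => ¬ (p = r ↔ q = r)) = ∅ := by
              rw [Finset.filter_eq_empty_iff]
              intro r hr hr2
              rw [hΦ, mem_fib] at hr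
              apply hr2
              refine iff_of_false ?_ ?_
              · rintro rfl
                exact hpv hr
              · rintro rfl
                exact hpv (h6.trans hr)
            rw [h8]
            simp
      rw [Nat.even_add] at hsum
      exact hsum.mp hΦe
  · intro e
    have h5 : ∑ i, (if (Sum.inl e : E ⊕ GV s t T × GV s t T) ∈ M i then w i else 0) =
        1 / (D : ℚ) := h4 (Sum.inl e)
    rw [← h5]
    apply Finset.sum_congr rfl
    intro i _
    simp

end Pool.Agent.Lib.MP_95bb8c_al
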