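import Pool.Agent.Lib.MP_95bb8c_al.Cycles

set_option autoImplicit false

namespace Pool.Agent.Lib.MP_95bb8c_al

open Finset

variable {V E : Type} [Fintype V] [DecidableEq V] [Fintype E] [DecidableEq E]
variable {s t : E → V} {T : Finset V}

/-- The relative frequency of the pair `e, f` of edges at `v`. -/
noncomputable def freq (s t : E → V) (T : Finset V) (D : ℕ) (v : V) (e f : E) : ℚ :=
  if e = f then 2 * (1 / (D : ℚ)) * (1 - 1 / (D : ℚ))
  else if v ∈ T then 2 * (1 / (D : ℚ)) * (1 / (D : ℚ))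
  else if dg s t v = 2 then 2 * (1 / (D : ℚ)) * (1 - 1 / (D : ℚ))
  else (1 / (D : ℚ)) * (1 - 1 / (D : ℚ))

omit [Fintype E] in
theorem card_inter_sum (X A : Finset E) :
    (X ∩ A).card = ∑ x ∈ A, (if x ∈ X then 1 else 0) := by
  rw [Finset.inter_comm, ← Finset.filter_mem_eq_inter, Finset.card_filter]

omit [Fintype E] in
theorem card_symm (A B : Finset E) :
    (symmDiff A B).card + 2 * (A ∩ B).card = A.card + B.card := by
  have h1 : symmDiff A B = (A \ B) ∪ (B \ A) := rfl
  have h2 : (symmDiff A B).card = (A \ B).card + (B \ A).card := by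
    rw [h1, Finset.card_union_of_disjoint]
    exact Finset.disjoint_left.mpr fun x hx hx2 =>
      (Finset.mem_sdiff.mp hx2).2 (Finset.mem_sdiff.mp hx).1
  have h3 := Finset.card_sdiff_add_card_inter A B
  have h4 := Finset.card_sdiff_add_card_inter B A
  rw [Finset.inter_comm] at h4
  omega

omit [Fintype V] in
theorem deg02_symm {D : ℕ} (hg : Good s t T D) {A B : Finset E}
    (hA : (∀ v ∈ T, (A ∩ cut s t {v}).card = 1) ∧ ∀ v, v ∉ T → Even (A ∩ cut s t {v}).card)
    (hB : (∀ v ∈ T, (B ∩ cut s t {v}).card = 1) ∧ ∀ v, v ∉ T → Even (B ∩ cut s t {v}).card) :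
    Deg02 s t (symmDiff A B) := by
  intro v
  have h1 : symmDiff A B ∩ cut s t {v} = symmDiff (A ∩ cut s t {v}) (B ∩ cut s t {v}) := by
    ext e
    simp only [Finset.mem_inter, Finset.mem_symmDiff]
    tauto
  have h2 := card_symm (A ∩ cut s t {v}) (B ∩ cut s t {v})
  rw [← h1] at h2
  have h3 : (A ∩ cut s t {v} ∩ (B ∩ cut s t {v})).card ≤ (A ∩ cut s t {v}).card :=
    Finset.card_le_card Finset.inter_subset_left
  by_cases hv : v ∈ T
  · have h4 := hA.1 v hv
    have h5 := hB.1 v hv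
    omega
  · have h4 := hA.2 v hv
    have h5 := hB.2 v hv
    have h6 : (symmDiff A B ∩ cut s t {v}).card ≤ (cut s t {v}).card :=
      Finset.card_le_card Finset.inter_subset_right
    have h7 := hg.hlow v hv
    unfold dg at h7
    obtain ⟨a, ha⟩ := h4
    obtain ⟨b, hb⟩ := h5
    omega

theorem balanced_law {D : ℕ} (hl : ∀ e, s e ≠ t e) (hg : Good s t T D) :
    ∃ (L : List (Finset E)) (N : ℕ), 0 < N ∧ (∀ C ∈ L, IsCycle s t C) ∧
      ∀ v, ∀ e ∈ cut s t {v}, ∀ f ∈ cut s t {v},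
        ((L.countP fun C => e ∈ C ∧ f ∈ C : ℕ) : ℚ) = N * freq s t T D v e f := by
  classical
  obtain ⟨ι, hι, w, F, hw0, hF, hw1, hx⟩ := exists_joins hl hg
  obtain ⟨N, m, hN, hm⟩ := common_den w hw0
  have hNq : (N : ℚ) ≠ 0 := by exact_mod_cast hN.ne'
  set X : ι × ι → Finset E := fun k => symmDiff (F k.1) (F k.2) with hXdef
  have hX : ∀ k : ι × ι, w k.1 * w k.2 ≠ 0 → Deg02 s t (X k) := by
    intro k hk
    exact deg02_symm hg (hF _ (left_ne_zero_of_mul hk)) (hF _ (right_ne_zero_of_mul hk))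
  have hdec : ∀ k : ι × ι, ∃ L : List (Finset E), Deg02 s t (X k) →
      (∀ C ∈ L, IsCycle s t C) ∧ ∀ v, ∀ e ∈ cut s t {v}, ∀ f ∈ cut s t {v},
        (L.countP fun C => e ∈ C ∧ f ∈ C) = if e ∈ X k ∧ f ∈ X k then 1 else 0 := by
    intro k
    by_cases h : Deg02 s t (X k)
    · obtain ⟨L, hL⟩ := decomp hl _ (X k) rfl h
      exact ⟨L, fun _ => hL⟩
    · exact ⟨[], fun h' => absurd h' h⟩
  choose L hL using hdec
  obtain ⟨L0, hL1, hL2⟩ := combine (fun k : ι × ι => m k.1 * m k.2) L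
  have hmw : ∀ k : ι × ι, m k.1 * m k.2 ≠ 0 → w k.1 * w k.2 ≠ 0 := by
    intro k hk hk2
    apply hk
    have h1 : ((m k.1 * m k.2 : ℕ) : ℚ) = 0 := by
      push_cast
      rw [hm, hm]
      have : (N : ℚ) * w k.1 * (N * w k.2) = N * N * (w k.1 * w k.2) := by ring
      rw [this, hk2, mul_zero]
    exact_mod_cast h1
  refine ⟨L0, N * N, Nat.mul_pos hN hN, ?_, ?_⟩
  · intro C hC
    obtain ⟨k, hk, hk2⟩ := hL1 C hC
    exact (hL k (hX k (hmw k hk))).1 C hk2
  intro v e he f hf
  have hcount : ((L0.countP fun C => e ∈ C ∧ f ∈ C : ℕ) : ℚ) = (N * N : ℕ) *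
      ∑ k : ι × ι, w k.1 * w k.2 * (if e ∈ X k ∧ f ∈ X k then 1 else 0) := by
    rw [hL2]
    push_cast
    rw [Finset.mul_sum]
    apply Finset.sum_congr rfl
    intro k _
    by_cases hk : m k.1 * m k.2 = 0
    · have hk' : ((m k.1 * m k.2 : ℕ) : ℚ) = 0 := by rw [hk]; simp
      push_cast at hk'
      have h2 : (N : ℚ) * N * (w k.1 * w k.2 * (if e ∈ X k ∧ f ∈ X k then 1 else 0)) =
          (N * w k.1) * (N * w k.2) * (if e ∈ X k ∧ f ∈ X k then 1 else 0) := by ring
      rw [h2, ← hm, ← hm, hk', zero_mul, zero_mul]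
    · rw [(hL k (hX k (hmw k hk))).2 v e he f hf, hm, hm]
      push_cast
      ring
  rw [hcount]
  congr 1
  -- the frequencies
  have hprod : ∀ a b : ι → ℚ, ∑ k : ι × ι, w k.1 * w k.2 * (a k.1 * b k.2) =
      (∑ i, w i * a i) * ∑ j, w j * b j := by
    intro a b
    rw [Fintype.sum_prod_type, Finset.sum_mul_sum]
    apply Finset.sum_congr rfl
    intro i _
    apply Finset.sum_congr rfl
    intro j _
    ring
  have hx' : ∀ g, ∑ i, w i * (if g ∈ F i then (1 : ℚ) else 0) = 1 / (D : ℚ) := by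
    intro g
    rw [← hx g]
    apply Finset.sum_congr rfl
    intro i _
    split_ifs <;> simp
  have hw1' : ∑ i, w i * (1 : ℚ) = 1 := by
    simp only [mul_one]
    exact hw1
  have hE1 : ∀ g, ∑ k : ι × ι, w k.1 * w k.2 * (if g ∈ X k then (1 : ℚ) else 0) =
      2 * (1 / (D : ℚ)) * (1 - 1 / (D : ℚ)) := by
    intro g
    have h1 : ∀ k : ι × ι, w k.1 * w k.2 * (if g ∈ X k then (1 : ℚ) else 0) =
        w k.1 * w k.2 * ((if g ∈ F k.1 then (1 : ℚ) else 0) * 1) +
        w k.1 * w k.2 * (1 * (if g ∈ F k.2 then (1 : ℚ) else 0)) -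
        2 * (w k.1 * w k.2 * ((if g ∈ F k.1 then (1 : ℚ) else 0) *
          (if g ∈ F k.2 then (1 : ℚ) else 0))) := by
      intro k
      have hmem : g ∈ X k ↔ (g ∈ F k.1 ∧ g ∉ F k.2 ∨ g ∈ F k.2 ∧ g ∉ F k.1) := by
        rw [hXdef]
        exact Finset.mem_symmDiff
      by_cases h1 : g ∈ F k.1 <;> by_cases h2 : g ∈ F k.2 <;> simp [hmem, h1, h2]
      ring
    simp_rw [h1]
    rw [Finset.sum_sub_distrib, Finset.sum_add_distrib, ← Finset.mul_sum]
    rw [hprod (fun i => if g ∈ F i then (1 : ℚ) else 0) (fun _ => 1),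
      hprod (fun _ => 1) (fun i => if g ∈ F i then (1 : ℚ) else 0),
      hprod (fun i => if g ∈ F i then (1 : ℚ) else 0) (fun i => if g ∈ F i then (1 : ℚ) else 0),
      hx', hw1']
    ring
  unfold freq
  by_cases hef : e = f
  · subst hef
    rw [if_pos rfl, ← hE1 e]
    apply Finset.sum_congr rfl
    intro k _
    simp only [and_self]
  rw [if_neg hef]
  by_cases hv : v ∈ T
  · rw [if_pos hv]
    have h1 : ∀ k : ι × ι, w k.1 * w k.2 * (if e ∈ X k ∧ f ∈ X k then (1 : ℚ) else 0) =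
        w k.1 * w k.2 * ((if e ∈ F k.1 then (1 : ℚ) else 0) * (if f ∈ F k.2 then (1 : ℚ) else 0)) +
        w k.1 * w k.2 * ((if f ∈ F k.1 then (1 : ℚ) else 0) *
          (if e ∈ F k.2 then (1 : ℚ) else 0)) := by
      intro k
      by_cases hk : w k.1 * w k.2 = 0
      · rw [hk]; ring
      rw [← mul_add]
      congr 1
      have hex : ∀ i, w i ≠ 0 → ¬ (e ∈ F i ∧ f ∈ F i) := by
        rintro i hi ⟨h1, h2⟩
        have h3 := (hF i hi).1 v hv
        rw [Finset.card_eq_one] at h3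
        obtain ⟨g, hg'⟩ := h3
        have h4 : e ∈ F i ∩ cut s t {v} := Finset.mem_inter.mpr ⟨h1, he⟩
        have h5 : f ∈ F i ∩ cut s t {v} := Finset.mem_inter.mpr ⟨h2, hf⟩
        rw [hg', Finset.mem_singleton] at h4 h5
        exact hef (h4.trans h5.symm)
      have ha := hex _ (left_ne_zero_of_mul hk)
      have hb := hex _ (right_ne_zero_of_mul hk)
      have hmem : ∀ g, g ∈ X k ↔ (g ∈ F k.1 ∧ g ∉ F k.2 ∨ g ∈ F k.2 ∧ g ∉ F k.1) := by
        intro g
        rw [hXdef]
        exact Finset.mem_symmDiff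
      by_cases h1 : e ∈ F k.1 <;> by_cases h2 : e ∈ F k.2 <;> by_cases h3 : f ∈ F k.1 <;>
        by_cases h4 : f ∈ F k.2 <;> simp_all
    simp_rw [h1]
    rw [Finset.sum_add_distrib, hprod (fun i => if e ∈ F i then (1 : ℚ) else 0)
      (fun i => if f ∈ F i then (1 : ℚ) else 0), hprod (fun i => if f ∈ F i then (1 : ℚ) else 0)
      (fun i => if e ∈ F i then (1 : ℚ) else 0), hx', hx']
    ring
  · rw [if_neg hv]
    have hne : (cut s t {v}).Nonempty := ⟨e, he⟩
    have hdg : dg s t v ≠ 0 := (Finset.card_pos.mpr hne).ne'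
    have hsub : ({e, f} : Finset E) ⊆ cut s t {v} := by
      intro g hg'
      rw [Finset.mem_insert, Finset.mem_singleton] at hg'
      rcases hg' with rfl | rfl
      · exact he
      · exact hf
    rcases dg_cases hg hv with h | h2 | h3
    · exact absurd h hdg
    · rw [if_pos h2, ← hE1 e]
      have hcut : cut s t {v} = {e, f} := by
        symm
        apply Finset.eq_of_subset_of_card_le hsub
        rw [Finset.card_pair hef]
        exact h2.le
      apply Finset.sum_congr rfl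
      intro k _
      by_cases hk : w k.1 * w k.2 = 0
      · rw [hk]; ring
      have h5 := hX k hk v
      rw [hcut, card_inter_sum, Finset.sum_pair hef] at h5
      by_cases h6 : e ∈ X k <;> by_cases h7 : f ∈ X k <;> simp_all
    · have hne2 : dg s t v ≠ 2 := by omega
      rw [if_neg hne2]
      have hc1 : (cut s t {v} \ {e, f}).card = 1 := by
        rw [Finset.card_sdiff_of_subset hsub, Finset.card_pair hef]
        have : (cut s t {v}).card = 3 := h3
        omega
      obtain ⟨g, hg1⟩ := Finset.card_eq_one.mp hc1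
      have hgm : g ∈ cut s t {v} \ {e, f} := by rw [hg1]; exact Finset.mem_singleton_self g
      rw [Finset.mem_sdiff, Finset.mem_insert, Finset.mem_singleton, not_or] at hgm
      have hcut : cut s t {v} = insert g {e, f} := by
        rw [← Finset.sdiff_union_of_subset hsub, hg1]
        rfl
      have h1 : ∀ k : ι × ι, w k.1 * w k.2 * (if e ∈ X k ∧ f ∈ X k then (1 : ℚ) else 0) =
          (w k.1 * w k.2 * (if e ∈ X k then (1 : ℚ) else 0) +
          w k.1 * w k.2 * (if f ∈ X k then (1 : ℚ) else 0) -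
          w k.1 * w k.2 * (if g ∈ X k then (1 : ℚ) else 0)) / 2 := by
        intro k
        by_cases hk : w k.1 * w k.2 = 0
        · rw [hk]; ring
        have h5 := hX k hk v
        rw [hcut, card_inter_sum, Finset.sum_insert (by
          rw [Finset.mem_insert, Finset.mem_singleton, not_or]; exact hgm.2),
          Finset.sum_pair hef] at h5
        by_cases h6 : e ∈ X k <;> by_cases h7 : f ∈ X k <;> by_cases h8 : g ∈ X k <;>
          simp_all
      simp_rw [h1]
      rw [← Finset.sum_div, Finset.sum_sub_distrib, Finset.sum_add_distrib, hE1, hE1, hE1]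
      ring

end Pool.Agent.Lib.MP_95bb8c_al
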